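import Pool.Agent.N677.Nag.Hom

/-! No two-torsion in integral homology bounds mod 2 Betti numbers by real Betti numbers. -/

set_option autoImplicit false

namespace Pool.Agent.N677.Nag

open Pool.Agent.Helper381 Pool.Agent.TH592.Nag

open Module

section Coef

variable {X : Type} [TopologicalSpace X]

/-- change of coefficients -/
noncomputable def mapA {A B : Type} [AddCommGroup A] [AddCommGroup B] (S : Type) (φ : A →+ B) :
    (S →₀ A) →+ (S →₀ B) := Finsupp.mapRange.addMonoidHom φ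

theorem mapA_apply {A B : Type} [AddCommGroup A] [AddCommGroup B] {S : Type} (φ : A →+ B)
    (c : S →₀ A) (s : S) : mapA S φ c s = φ (c s) := rfl

theorem mapA_single {A B : Type} [AddCommGroup A] [AddCommGroup B] {S : Type} (φ : A →+ B)
    (s : S) (a : A) : mapA S φ (Finsupp.single s a) = Finsupp.single s (φ a) :=
  Finsupp.mapRange_single (hf := map_zero φ)

theorem bd_single' (R : Type) [CommRing R] (n : ℕ) (σ : Sing X (n + 1)) (r : R) :
    bd R X n (Finsupp.single σ r) =
      ∑ i : Fin (n + 2), ((-1 : ℤ) ^ (i : ℕ)) • Finsupp.single (sface n i σ) r := by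
  rw [bd_single, Finset.smul_sum]
  refine Finset.sum_congr rfl fun i _ => ?_
  rw [smul_comm, Finsupp.smul_single, smul_eq_mul, mul_one]

theorem bd_mapA {A B : Type} [CommRing A] [CommRing B] (φ : A →+ B) (n : ℕ)
    (c : Sing X (n + 1) →₀ A) :
    bd B X n (mapA _ φ c) = mapA _ φ (bd A X n c) := by
  induction c using Finsupp.induction_linear with
  | zero => simp
  | add f g hf hg => simp only [map_add, hf, hg]
  | single a b =>
    rw [mapA_single, bd_single', bd_single', map_sum]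
    refine Finset.sum_congr rfl fun i _ => ?_
    rw [map_zsmul, mapA_single]

theorem mapA_cyc {A B : Type} [CommRing A] [CommRing B] (φ : A →+ B) (n : ℕ)
    (c : Sing X n →₀ A) (h : c ∈ cyc A X n) : mapA _ φ c ∈ cyc B X n := by
  cases n with
  | zero => trivial
  | succ n =>
    have h1 : bd A X n c = 0 := h
    have h2 : bd B X n (mapA _ φ c) = 0 := by rw [bd_mapA, h1, map_zero]
    exact h2

/-- every mod 2 chain lifts -/
theorem exists_lift {S : Type} (c : S →₀ ZMod 2) :
    ∃ c' : S →₀ ℤ, mapA S (Int.castAddHom (ZMod 2)) c' = c := by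
  induction c using Finsupp.induction_linear with
  | zero => exact ⟨0, map_zero _⟩
  | add f g hf hg =>
    obtain ⟨f', hf'⟩ := hf
    obtain ⟨g', hg'⟩ := hg
    exact ⟨f' + g', by rw [map_add, hf', hg']⟩
  | single a b =>
    refine ⟨Finsupp.single a (b.val : ℤ), ?_⟩
    rw [mapA_single]
    congr 1
    simp

/-- chains vanishing mod 2 are even -/
theorem even_of_zero {S : Type} (c : S →₀ ℤ) (h : mapA S (Int.castAddHom (ZMod 2)) c = 0) :
    ∃ e : S →₀ ℤ, c = (2 : ℤ) • e := by
  refine ⟨c.mapRange (fun x => x / 2) (by simp), ?_⟩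
  ext s
  have h1 := DFunLike.congr_fun h s
  rw [mapA_apply] at h1
  have h2 : ((c s : ℤ) : ZMod 2) = 0 := h1
  have h3 := (ZMod.intCast_zmod_eq_zero_iff_dvd (c s) 2).mp h2
  simp only [Finsupp.smul_apply, Finsupp.mapRange_apply, smul_eq_mul]
  have h4 : (2 : ℤ) ∣ c s := by exact_mod_cast h3
  omega

theorem smul2_inj {S : Type} {c : S →₀ ℤ} (h : (2 : ℤ) • c = 0) : c = 0 := by
  ext s
  have h1 := DFunLike.congr_fun h s
  simp only [Finsupp.smul_apply, smul_eq_mul, Finsupp.coe_zero, Pi.zero_apply] at h1 ⊢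
  omega

/-- no two-torsion in homology, in terms of chains -/
theorem tor_chain (h : ∀ n, ∀ g : Hm ℤ X n, (2 : ℤ) • g = 0 → g = 0) {n : ℕ}
    {c : Sing X n →₀ ℤ} (hc : c ∈ cyc ℤ X n) (h2 : (2 : ℤ) • c ∈ bou ℤ X n) : c ∈ bou ℤ X n := by
  have h3 := h n (Submodule.Quotient.mk ⟨c, hc⟩) (by
    rw [← Submodule.Quotient.mk_smul, Submodule.Quotient.mk_eq_zero]
    exact h2)
  rw [Submodule.Quotient.mk_eq_zero] at h3
  exact h3

theorem lift_cyc (h : ∀ n, ∀ g : Hm ℤ X n, (2 : ℤ) • g = 0 → g = 0) (n : ℕ)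
    (z : Sing X n →₀ ZMod 2) (hz : z ∈ cyc (ZMod 2) X n) :
    ∃ ζ ∈ cyc ℤ X n, mapA _ (Int.castAddHom (ZMod 2)) ζ = z := by
  obtain ⟨c, hc⟩ := exists_lift z
  cases n with
  | zero => exact ⟨c, trivial, hc⟩
  | succ n =>
    have h1 : mapA _ (Int.castAddHom (ZMod 2)) (bd ℤ X n c) = 0 := by
      rw [← bd_mapA, hc]
      exact hz
    obtain ⟨b, hb⟩ := even_of_zero _ h1
    have hbc : b ∈ cyc ℤ X n := by
      have h2 : (2 : ℤ) • b ∈ cyc ℤ X n := by
        rw [← hb]
        exact bou_le_cyc ℤ n ⟨c, rfl⟩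
      cases n with
      | zero => trivial
      | succ m =>
        have h3 : bd ℤ X m ((2 : ℤ) • b) = 0 := h2
        rw [map_smul] at h3
        exact smul2_inj h3
    have hbb : b ∈ bou ℤ X n := tor_chain h hbc (by rw [← hb]; exact ⟨c, rfl⟩)
    obtain ⟨e, he⟩ := hbb
    refine ⟨c - (2 : ℤ) • e, ?_, ?_⟩
    · change bd ℤ X n (c - (2 : ℤ) • e) = 0
      rw [map_sub, map_smul, hb, he, sub_self]
    · rw [map_sub, hc, map_zsmul]
      have : ∀ y : Sing X (n + 1) →₀ ZMod 2, (2 : ℤ) • y = 0 := by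
        intro y
        ext s
        simp only [Finsupp.smul_apply, zsmul_eq_mul, Finsupp.coe_zero, Pi.zero_apply]
        have h2 : ((2 : ℤ) : ZMod 2) = 0 := rfl
        rw [h2, zero_mul]
      rw [this, sub_zero]

theorem int_indep (h : ∀ n, ∀ g : Hm ℤ X n, (2 : ℤ) • g = 0 → g = 0) {n m : ℕ}
    (z : Fin m → cyc (ZMod 2) X n)
    (hz : LinearIndependent (ZMod 2)
      (fun i => (Submodule.Quotient.mk (z i) : Hm (ZMod 2) X n)))
    (ζ : Fin m → (Sing X n →₀ ℤ)) (hζ : ∀ i, ζ i ∈ cyc ℤ X n)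
    (hr : ∀ i, mapA _ (Int.castAddHom (ZMod 2)) (ζ i) = (z i).1) :
    ∀ (N : ℕ) (c : Fin m → ℤ), ∑ i, (c i).natAbs ≤ N → ∑ i, c i • ζ i ∈ bou ℤ X n →
      ∀ i, c i = 0 := by
  intro N
  induction N with
  | zero =>
    intro c hc _ i
    have h1 : (c i).natAbs ≤ ∑ i, (c i).natAbs :=
      Finset.single_le_sum (f := fun i => (c i).natAbs) (fun _ _ => Nat.zero_le _)
        (Finset.mem_univ i)
    omega
  | succ N ih =>
    intro c hc hb i
    have hev : ∀ i, ∃ y : ℤ, c i = 2 * y := by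
      obtain ⟨e, he⟩ := hb
      have h1 : ∑ i, ((c i : ℤ) : ZMod 2) • (z i).1 ∈ bou (ZMod 2) X n := by
        refine ⟨mapA _ (Int.castAddHom (ZMod 2)) e, ?_⟩
        rw [bd_mapA, he, map_sum]
        refine Finset.sum_congr rfl fun i _ => ?_
        rw [map_zsmul, hr]
        exact (Int.cast_smul_eq_zsmul (ZMod 2) (c i) (z i).1).symm
      have h2 : ∑ i, ((c i : ℤ) : ZMod 2) • (Submodule.Quotient.mk (z i) : Hm (ZMod 2) X n) = 0 := by
        have h3 : (Submodule.Quotient.mk (∑ i, ((c i : ℤ) : ZMod 2) • z i) : Hm (ZMod 2) X n) = 0 := by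
          rw [Submodule.Quotient.mk_eq_zero]
          change ((∑ i, ((c i : ℤ) : ZMod 2) • z i : cyc (ZMod 2) X n) : Sing X n →₀ ZMod 2) ∈
            bou (ZMod 2) X n
          rw [Submodule.coe_sum]
          simp only [Submodule.coe_smul]
          exact h1
        rw [← h3]
        change _ = (Submodule.mkQ _) _
        rw [map_sum]
        refine Finset.sum_congr rfl fun i _ => ?_
        rw [map_smul]
        rfl
      intro i
      have h4 := Fintype.linearIndependent_iff.1 hz _ h2 i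
      have h5 := (ZMod.intCast_zmod_eq_zero_iff_dvd (c i) 2).mp h4
      have h6 : (2 : ℤ) ∣ c i := by exact_mod_cast h5
      exact h6
    choose y hy using hev
    by_cases h0 : ∀ i, y i = 0
    · rw [hy i, h0 i, mul_zero]
    · push Not at h0
      obtain ⟨j, hj⟩ := h0
      have h1 : ∑ i, (y i).natAbs < ∑ i, (c i).natAbs := by
        apply Finset.sum_lt_sum
        · intro i _
          rw [hy i]
          omega
        · refine ⟨j, Finset.mem_univ j, ?_⟩
          rw [hy j]
          omega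
      have h2 := ih y (by omega) (tor_chain h (Submodule.sum_mem _ fun i _ =>
        Submodule.smul_mem _ _ (hζ i)) (by
          have e : (2 : ℤ) • ∑ i, y i • ζ i = ∑ i, c i • ζ i := by
            rw [Finset.smul_sum]
            refine Finset.sum_congr rfl fun i _ => ?_
            rw [hy i, mul_smul]
          rw [e]
          exact hb))
      exact absurd (h2 j) hj

/-- clearing denominators -/
theorem exists_denom {S : Type} (s : S →₀ ℚ) :
    ∃ N : ℕ, N ≠ 0 ∧ ∃ s' : S →₀ ℤ, mapA S (Int.castAddHom ℚ) s' = N • s := by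
  induction s using Finsupp.induction_linear with
  | zero => exact ⟨1, one_ne_zero, 0, by simp⟩
  | add f g hf hg =>
    obtain ⟨N, hN, f', hf'⟩ := hf
    obtain ⟨N', hN', g', hg'⟩ := hg
    refine ⟨N * N', Nat.mul_ne_zero hN hN', N' • f' + N • g', ?_⟩
    rw [map_add, map_nsmul, map_nsmul, hf', hg', smul_add, ← mul_smul, ← mul_smul, mul_comm N' N]
  | single a b =>
    refine ⟨b.den, b.den_nz, Finsupp.single a b.num, ?_⟩
    rw [mapA_single, Finsupp.smul_single]
    congr 1
    rw [nsmul_eq_mul]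
    exact (Rat.den_mul_eq_num b).symm

theorem mapQ_inj {S : Type} : Function.Injective (mapA S (Int.castAddHom ℚ)) := by
  intro a b hab
  ext s
  have := DFunLike.congr_fun hab s
  rw [mapA_apply, mapA_apply] at this
  have h2 : ((a s : ℤ) : ℚ) = (b s : ℤ) := this
  exact_mod_cast h2

theorem betti_le (h : ∀ n, ∀ g : Hm ℤ X n, (2 : ℤ) • g = 0 → g = 0) (n : ℕ)
    (hR : Module.Finite ℝ (Hm ℝ X n)) :
    finrank (ZMod 2) (Hm (ZMod 2) X n) ≤ finrank ℝ (Hm ℝ X n) := by
  classical
  have : Fact (Nat.Prime 2) := ⟨Nat.prime_two⟩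
  by_cases hF : Module.Finite (ZMod 2) (Hm (ZMod 2) X n)
  swap
  · rw [Module.finrank_of_not_finite hF]
    exact Nat.zero_le _
  set m := finrank (ZMod 2) (Hm (ZMod 2) X n) with hm
  let b := Module.finBasis (ZMod 2) (Hm (ZMod 2) X n)
  have hex : ∀ i : Fin m, ∃ z : cyc (ZMod 2) X n, Submodule.Quotient.mk z = b i :=
    fun i => Submodule.Quotient.mk_surjective _ _
  choose z hz using hex
  have hzi : LinearIndependent (ZMod 2)
      (fun i => (Submodule.Quotient.mk (z i) : Hm (ZMod 2) X n)) := by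
    have : (fun i => (Submodule.Quotient.mk (z i) : Hm (ZMod 2) X n)) = b := funext hz
    rw [this]
    exact b.linearIndependent
  have hex2 := fun i => lift_cyc h n (z i).1 (z i).2
  choose ζ hζ hr using hex2
  have hint := int_indep h z hzi ζ hζ hr
  -- real classes
  let v : Fin m → Hm ℝ X n := fun i =>
    Submodule.Quotient.mk ⟨mapA _ (Int.castAddHom ℝ) (ζ i), mapA_cyc _ n _ (hζ i)⟩
  have hv : LinearIndependent ℝ v := by
    rw [Fintype.linearIndependent_iff]
    intro r hr0
    by_contra hcon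
    push Not at hcon
    obtain ⟨i0, hi0⟩ := hcon
    have h1 : ∑ i, r i • mapA _ (Int.castAddHom ℝ) (ζ i) ∈ bou ℝ X n := by
      let w : Fin m → cyc ℝ X n := fun i =>
        ⟨mapA _ (Int.castAddHom ℝ) (ζ i), mapA_cyc _ n _ (hζ i)⟩
      have h2 : (Submodule.Quotient.mk (∑ i, r i • w i) : Hm ℝ X n) = 0 := by
        rw [← hr0]
        change (Submodule.mkQ _) _ = _
        rw [map_sum]
        refine Finset.sum_congr rfl fun i _ => ?_
        rw [map_smul]
        rfl
      rw [Submodule.Quotient.mk_eq_zero] at h2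
      have h3 : ((∑ i, r i • w i : cyc ℝ X n) : Sing X n →₀ ℝ) ∈ bou ℝ X n := h2
      rw [Submodule.coe_sum] at h3
      exact h3
    obtain ⟨s, hs⟩ := h1
    obtain ⟨lam, hlam⟩ : ∃ lam : ℝ →ₗ[ℚ] ℚ, lam (r i0) ≠ 0 := by
      by_contra hc
      push Not at hc
      exact hi0 ((Module.forall_dual_apply_eq_zero_iff ℚ (r i0)).1 hc)
    have h2 := congrArg (mapA (Sing X n) lam.toAddMonoidHom) hs
    rw [← bd_mapA, map_sum] at h2
    have h3 : ∀ i, mapA (Sing X n) lam.toAddMonoidHom (r i • mapA _ (Int.castAddHom ℝ) (ζ i)) =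
        lam (r i) • mapA _ (Int.castAddHom ℚ) (ζ i) := by
      intro i
      ext τ
      rw [mapA_apply, Finsupp.smul_apply, Finsupp.smul_apply, mapA_apply, mapA_apply]
      change lam (r i * (((ζ i) τ : ℤ) : ℝ)) = lam (r i) * (((ζ i) τ : ℤ) : ℚ)
      have e : r i * (((ζ i) τ : ℤ) : ℝ) = ((ζ i) τ : ℤ) • r i := by
        rw [zsmul_eq_mul, mul_comm]
      rw [e, map_zsmul, zsmul_eq_mul, mul_comm]
    rw [Finset.sum_congr rfl fun i _ => h3 i] at h2
    obtain ⟨N, hN, s', hs'⟩ := exists_denom (mapA _ lam.toAddMonoidHom s)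
    obtain ⟨N', hN', q, hq⟩ := exists_denom (Finsupp.equivFunOnFinite.symm (fun i => lam (r i)))
    have hq' : ∀ i, ((q i : ℤ) : ℚ) = N' * lam (r i) := by
      intro i
      have := DFunLike.congr_fun hq i
      rw [mapA_apply, Finsupp.smul_apply, nsmul_eq_mul] at this
      exact this
    have h4 : ∑ i, ((N : ℤ) * q i) • ζ i = bd ℤ X n ((N' : ℤ) • s') := by
      apply mapQ_inj
      rw [← bd_mapA, map_sum, map_zsmul, hs', map_zsmul, map_nsmul, h2]
      rw [Finset.smul_sum, Finset.smul_sum]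
      refine Finset.sum_congr rfl fun i _ => ?_
      rw [map_zsmul]
      ext τ
      simp only [Finsupp.smul_apply, smul_eq_mul, zsmul_eq_mul, nsmul_eq_mul]
      push_cast
      rw [hq' i]
      ring
    have h5 := hint _ _ le_rfl (by rw [h4]; exact ⟨_, rfl⟩) i0
    rcases mul_eq_zero.1 h5 with h6 | h6
    · exact hN (by exact_mod_cast h6)
    · have h7 := hq' i0
      rw [h6, Int.cast_zero] at h7
      rcases mul_eq_zero.1 h7.symm with h8 | h8
      · exact hN' (by exact_mod_cast h8)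
      · exact hlam h8
  have h9 := hv.fintype_card_le_finrank
  rwa [Fintype.card_fin] at h9

end Coef

end Pool.Agent.N677.Nag
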