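import Pool.Agent.N677.Nag.Leray
import Pool.Agent.Helper381.Cover

/-! Vanishing of singular cohomology above the dimension. -/

set_option autoImplicit false

namespace Pool.Agent.N677.Nag

open Pool.Agent.Helper381

universe u v w x

open Metric Set Module

section LerayGen

variable (k : Type u) [CommRing k]

theorem leray_gen {E : Type w} [NormedAddCommGroup E] [NormedSpace ℝ E] [FiniteDimensional ℝ E]
    {J : Type v} [Finite J] (C : J → Set E) (hc : ∀ j, Convex ℝ (C j)) (n : ℕ)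
    (hn : finrank ℝ E ≤ n) : Van k (Nrv C) n := by
  classical
  have hex : ∀ s : Set J, ∃ x : E, Nrv C s → x ∈ ⋂ j ∈ s, C j := by
    intro s
    by_cases h : Nrv C s
    · obtain ⟨x, hx⟩ := h
      exact ⟨x, fun _ => hx⟩
    · exact ⟨0, fun h' => absurd h' h⟩
  choose x hx using hex
  let e : E ≃L[ℝ] (Fin (finrank ℝ E) → ℝ) :=
    ContinuousLinearEquiv.ofFinrankEq (by simp)
  let C' : J → Set E := fun j => convexHull ℝ (x '' {s | j ∈ s ∧ Nrv C s})
  have hC' : ∀ j, C' j ⊆ C j := by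
    intro j
    apply convexHull_min _ (hc j)
    rintro _ ⟨s, ⟨hjs, hs⟩, rfl⟩
    have := hx s hs
    simp only [mem_iInter] at this
    exact this j hjs
  have hcomp : ∀ j, IsCompact (C' j) := fun j =>
    (Set.toFinite _).isCompact_convexHull ℝ
  have h1 := leray k (finrank ℝ E) J (fun j => e '' C' j)
    (fun j => (convex_convexHull ℝ (x '' {s | j ∈ s ∧ Nrv C s})).linear_image
      (e.toLinearEquiv.toLinearMap))
    (fun j => (hcomp j).image e.continuous) n hn
  apply h1.congr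
  intro m t
  constructor
  · rintro ⟨y, hy⟩
    refine ⟨e.symm y, ?_⟩
    simp only [mem_iInter] at hy ⊢
    intro j hj
    obtain ⟨z, hz, rfl⟩ := hy j hj
    rw [e.symm_apply_apply]
    exact hC' j hz
  · intro h
    refine ⟨e (x (Set.range t)), ?_⟩
    simp only [mem_iInter]
    intro j hj
    exact ⟨_, subset_convexHull _ _ ⟨Set.range t, ⟨hj, h⟩, rfl⟩, rfl⟩

end LerayGen

section Glob

variable (k : Type u) [CommRing k]
variable {M : Type v} {E : Type w} [MetricSpace M] [NormedAddCommGroup E] [NormedSpace ℝ E]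
  {R : ℝ} (G : Geo M E R)

include G in
theorem Geo_link [FiniteDimensional ℝ E] {J : Type x} [Finite J] (p : J → M) {ρ : ℝ}
    (hρR : 4 * ρ ≤ R) (v : J) (S : Set J) (n : ℕ) (hn : finrank ℝ E ≤ n) :
    Van k (fun s => s ⊆ S ∧ Nrv (fun j => ball (p j) ρ) (insert v s)) n := by
  classical
  obtain ⟨c, hcW⟩ := G.chart (p v)
  let C : J → Set E := fun j => {u | j ∈ S ∧ u ∈ c.V ∧ dist (p j) (c.ψ u) < ρ ∧
    dist (p v) (c.ψ u) < ρ}
  have hconv : ∀ j, Convex ℝ (C j) := by
    intro j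
    rw [convex_iff_forall_pos]
    rintro a ⟨hjS, haV, ha1, ha2⟩ b ⟨_, hbV, hb1, hb2⟩ s t hs ht hst
    have hs' : s = 1 - t := by linarith
    subst hs'
    have hρ0 : 0 < ρ := lt_of_le_of_lt dist_nonneg ha1
    have hv : p v ∈ c.W := hcW (mem_ball_self G.Rpos)
    have hj : p j ∈ c.W := by
      apply hcW
      rw [mem_ball]
      have := dist_triangle (p j) (c.ψ a) (p v)
      rw [dist_comm (c.ψ a) (p v)] at this
      linarith
    have ht' : t ∈ Icc (0 : ℝ) 1 := ⟨ht.le, by linarith⟩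
    exact ⟨hjS, c.convexV haV hbV hs.le ht.le (by ring),
      c.ball_convex hj haV hbV ha1 hb1 t ht', c.ball_convex hv haV hbV ha2 hb2 t ht'⟩
  apply (leray_gen k C hconv n hn).congr
  intro m t
  constructor
  · rintro ⟨u, hu⟩
    simp only [mem_iInter] at hu
    refine ⟨fun j hj => (hu j hj).1, c.ψ u, ?_⟩
    simp only [mem_iInter, mem_insert_iff]
    rintro j (rfl | hj)
    · rw [mem_ball, dist_comm]
      exact (hu (t 0) ⟨0, rfl⟩).2.2.2
    · rw [mem_ball, dist_comm]
      exact (hu j hj).2.2.1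
  · rintro ⟨hS, y, hy⟩
    simp only [mem_iInter, mem_insert_iff, mem_ball] at hy
    have hyv : dist y (p v) < ρ := hy v (Or.inl rfl)
    have hρ0 : 0 < ρ := lt_of_le_of_lt dist_nonneg hyv
    have hyW : y ∈ c.W := hcW (by rw [mem_ball]; linarith)
    refine ⟨c.φ y, ?_⟩
    simp only [mem_iInter]
    intro j hj
    refine ⟨hS hj, c.φmaps _ hyW, ?_, ?_⟩
    · rw [c.ψφ y hyW, dist_comm]; exact hy j (Or.inr hj)
    · rw [c.ψφ y hyW, dist_comm]; exact hyv

include G in
theorem Geo_van [FiniteDimensional ℝ E] {J : Type x} [Finite J] (p : J → M) {ρ : ℝ}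
    (hρR : 4 * ρ ≤ R) (n : ℕ) (hn : finrank ℝ E ≤ n) :
    Van k (Nrv (fun j => ball (p j) ρ)) (n + 1) := by
  classical
  have := Fintype.ofFinite J
  have key : ∀ S : Finset J,
      Van k (fun s => s ⊆ (S : Set J) ∧ Nrv (fun j => ball (p j) ρ) s) (n + 1) := by
    intro S
    induction S using Finset.induction_on with
    | empty =>
      apply Van.empty
      rintro m t ⟨h, _⟩
      have := h ⟨0, rfl⟩
      simp at this
    | insert v S hv ih =>
      have h2 : Van k (fun s => s ⊆ (insert v S : Set J) ∧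
          Nrv (fun j => ball (p j) ρ) (insert v s)) (n + 1) := by
        apply Van.cone v
        rintro s ⟨h1, h2⟩
        refine ⟨Set.insert_subset (Set.mem_insert _ _) h1, ?_⟩
        rw [Set.insert_idem]
        exact h2
      have h3 : Van k (fun s => (s ⊆ (S : Set J) ∧ Nrv (fun j => ball (p j) ρ) s) ∧
          (s ⊆ (insert v S : Set J) ∧ Nrv (fun j => ball (p j) ρ) (insert v s))) n := by
        apply (Geo_link k G p hρR v (S : Set J) n hn).congr
        intro m t
        constructor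
        · rintro ⟨h1, h2⟩
          exact ⟨⟨h1, Nrv.mono _ _ _ (Set.subset_insert _ _) h2⟩,
            h1.trans (Set.subset_insert _ _), h2⟩
        · rintro ⟨⟨h1, _⟩, _, h2⟩
          exact ⟨h1, h2⟩
      have h4 := Van.union (k := k) (P := fun s => s ⊆ (S : Set J) ∧ Nrv (fun j => ball (p j) ρ) s)
        (Q := fun s => s ⊆ (insert v S : Set J) ∧ Nrv (fun j => ball (p j) ρ) (insert v s))
        (fun s t hst h => ⟨hst.trans h.1, Nrv.mono _ _ _ hst h.2⟩)
        (fun s t hst h => ⟨hst.trans h.1, Nrv.mono _ _ _ (Set.insert_subset_insert hst) h.2⟩)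
        ih h2 h3
      apply h4.congr
      intro m t
      rw [Finset.coe_insert]
      constructor
      · rintro (⟨h1, h2⟩ | ⟨h1, h2⟩)
        · exact ⟨h1.trans (Set.subset_insert _ _), h2⟩
        · exact ⟨h1, Nrv.mono _ _ _ (Set.subset_insert _ _) h2⟩
      · rintro ⟨h1, h2⟩
        by_cases hvt : v ∈ Set.range t
        · right
          refine ⟨h1, ?_⟩
          rw [Set.insert_eq_of_mem hvt]
          exact h2
        · left
          exact ⟨(Set.subset_insert_iff_of_notMem hvt).1 h1, h2⟩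
  apply (key Finset.univ).congr
  intro m t
  simp

end Glob

section Tuple

variable {k : Type v} [CommRing k] {X : Type u} [TopologicalSpace X] {J : Type u} (B : J → Set X)

/-- tuples whose members meet -/
abbrev TT (n : ℕ) : Type u := {t : Fin (n + 1) → J // (⋂ i, B (t i)).Nonempty}

variable {B}

/-- faces of tuples -/
def tface (n : ℕ) (i : Fin (n + 2)) (t : TT B (n + 1)) : TT B n :=
  ⟨t.1 ∘ i.succAbove, t.2.mono (fun x hx => by
    simp only [mem_iInter] at hx ⊢
    exact fun j => hx _)⟩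

omit [TopologicalSpace X] in
theorem tface_tface (n : ℕ) (i j : Fin (n + 2)) (c : TT B (n + 2)) (h : i ≤ j) :
    tface n i (tface (n + 1) j.succ c) = tface n j (tface (n + 1) i.castSucc c) := by
  apply Subtype.ext
  funext x
  simp only [tface, Function.comp_apply]
  rw [succAbove_comm i j h x]

/-- cohomology of the nerve -/
abbrev TCoh (k : Type v) [CommRing k] {X : Type u} [TopologicalSpace X] {J : Type u}
    (B : J → Set X) (n : ℕ) : Type (max u v) :=
  Coh k (fun n => TT B n → k) (fun n => altd k (tface (B := B)) n) n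

/-- pairs of a tuple and a simplex in the intersection -/
abbrev YY (B : J → Set X) (p q : ℕ) : Type u :=
  {z : (Fin (p + 1) → J) × Sing X q // ∀ i, Set.range z.2 ⊆ B (z.1 i)}

noncomputable def gface1 (q p : ℕ) (i : Fin (p + 2)) (z : YY B (p + 1) q) : YY B p q :=
  ⟨(z.1.1 ∘ i.succAbove, z.1.2), fun _ => z.2 _⟩

noncomputable def gface2 (p q : ℕ) (j : Fin (q + 2)) (z : YY B p (q + 1)) : YY B p q :=
  ⟨(z.1.1, sface q j z.1.2), fun i => (range_sface q j z.1.2).trans (z.2 i)⟩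

theorem YY.tup {p q : ℕ} (z : YY B p q) : (⋂ i, B (z.1.1 i)).Nonempty := by
  obtain ⟨y, hy⟩ := Set.range_nonempty z.1.2
  exact ⟨y, mem_iInter.2 fun i => z.2 i hy⟩

omit [TopologicalSpace X] in
theorem comp_fin1 {A : Type w} (f g : Fin 1 → A) (h : f 0 = g 0) : f = g := by
  funext i
  rw [Subsingleton.elim i 0, h]

theorem nerve_tuple
    (hcone : ∀ (n : ℕ) (t : Fin (n + 1) → J), (⋂ i, B (t i)).Nonempty → ConeData (⋂ i, B (t i)))
    (n : ℕ) : Nonempty (SmallCoh k (Set.range B) n ≃ₗ[k] TCoh k B n) := by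
  classical
  have hv : ∀ (q : ℕ) (σ : Small (Set.range B) q), ∃ v : J, Set.range σ.1 ⊆ B v := by
    rintro q ⟨σ, C, ⟨v, rfl⟩, h⟩
    exact ⟨v, h⟩
  choose w hw using hv
  have sm : ∀ {p q : ℕ} (z : YY B p q), ∃ C ∈ Set.range B, Set.range z.1.2 ⊆ C :=
    fun z => ⟨_, ⟨z.1.1 0, rfl⟩, z.2 0⟩
  have hK : ∀ (p : ℕ) (t : TT B p), ∃ (pt : X) (K : ∀ q, Sing X q → Sing X (q + 1)),
      pt ∈ (⋂ i, B (t.1 i)) ∧
      (∀ q (σ : Sing X q), Set.range σ ⊆ (⋂ i, B (t.1 i)) →
        Set.range (K q σ) ⊆ (⋂ i, B (t.1 i)) ∧ sface q 0 (K q σ) = σ) ∧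
      (∀ q (σ : Sing X (q + 1)), Set.range σ ⊆ (⋂ i, B (t.1 i)) → ∀ i : Fin (q + 2),
        sface (q + 1) i.succ (K (q + 1) σ) = K q (sface q i σ)) ∧
      (∀ σ : Sing X 0, Set.range σ ⊆ (⋂ i, B (t.1 i)) →
        sface 0 1 (K 0 σ) = ContinuousMap.const _ pt) := fun p t => hcone p t.1 t.2
  choose pt K hpt hK1 hK2 hK3 using hK
  have rng : ∀ {p q : ℕ} (t : Fin (p + 1) → J) (σ : Sing X q),
      (∀ i, Set.range σ ⊆ B (t i)) → Set.range σ ⊆ ⋂ i, B (t i) :=
    fun t σ h => Set.subset_iInter h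
  have rng' : ∀ {p q : ℕ} (t : Fin (p + 1) → J) (σ : Sing X q),
      (Set.range σ ⊆ ⋂ i, B (t i)) → (∀ i, Set.range σ ⊆ B (t i)) :=
    fun t σ h i => h.trans (Set.iInter_subset _ i)
  refine double_complex (k := k)
    (fun q => Small (Set.range B) q → k) (fun q => altd k (smface (𝒞 := Set.range B)) q)
    (fun p => TT B p → k) (fun p => altd k (tface (B := B)) p)
    (fun p q => YY B p q → k)
    (fun p q => altd k (S := fun p => YY B p q) (fun p => gface1 q p) p)
    (fun p q => altd k (S := fun q => YY B p q) (fun q => gface2 p q) q)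
    (fun q => { toFun := fun f z => f ⟨z.1.2, sm z⟩
                map_add' := fun _ _ => rfl, map_smul' := fun _ _ => rfl })
    (fun p => { toFun := fun b z => b ⟨z.1.1, z.tup⟩
                map_add' := fun _ _ => rfl, map_smul' := fun _ _ => rfl })
    ?_ ?_ ?_ ?_ ?_ ?_ ?_ ?_ ?_ ?_ ?_ ?_ ?_ n
  · -- d11
    intro p q f
    apply altd_altd
    intro n i j z hij
    apply Subtype.ext
    apply Prod.ext
    · funext x
      simp only [gface1, Function.comp_apply]
      rw [succAbove_comm i j hij x]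
    · rfl
  · -- d22
    intro p q f
    apply altd_altd
    intro n i j z hij
    apply Subtype.ext
    apply Prod.ext
    · rfl
    · exact sface_sface _ _ _ _ hij
  · -- d12
    intro p q f
    funext z
    simp only [altd_apply, Finset.mul_sum]
    rw [Finset.sum_comm]
    refine Finset.sum_congr rfl fun j _ => Finset.sum_congr rfl fun i _ => ?_
    have : gface2 (B := B) p q j (gface1 (q + 1) p i z) = gface1 q p i (gface2 (p + 1) q j z) := rfl
    rw [this]
    ring
  · -- εd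
    intro q f
    rfl
  · -- ηd
    intro p b
    rfl
  · -- εinj
    intro q f g hfg
    funext σ
    have := congrFun hfg ⟨(fun _ => w q σ, σ.1), fun _ => hw q σ⟩
    exact this
  · -- ηinj
    intro p b b' hb
    funext t
    have := congrFun hb ⟨(t.1, ContinuousMap.const _ (pt p t)), by
      intro i
      rintro _ ⟨x, rfl⟩
      exact mem_iInter.1 (hpt p t) i⟩
    exact this
  · -- ε0
    intro q f
    funext z
    change altd k (S := fun p => YY B p q) (fun p => gface1 q p) 0 _ z = 0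
    rw [altd_apply, Fin.sum_univ_two]
    simp [gface1]
  · -- η0
    intro p b
    funext z
    change altd k (S := fun q => YY B p q) (fun q => gface2 p q) 0 _ z = 0
    rw [altd_apply, Fin.sum_univ_two]
    simp [gface2]
  · -- εex
    intro q f hf
    refine ⟨fun σ => f ⟨(fun _ => w q σ, σ.1), fun _ => hw q σ⟩, ?_⟩
    funext z
    obtain ⟨⟨t, σ⟩, hz⟩ := z
    have hz' : ∀ i, Set.range σ ⊆ B (t i) := hz
    have hs : ∃ C ∈ Set.range B, Set.range σ ⊆ C := sm ⟨(t, σ), hz⟩
    have h2 := congrFun hf (⟨(Fin.cons (w q ⟨σ, hs⟩) t, σ), by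
      intro i
      refine Fin.cases ?_ (fun i => ?_) i
      · exact hw q ⟨σ, hs⟩
      · exact hz' i⟩ : YY B 1 q)
    rw [altd_apply, Fin.sum_univ_two] at h2
    simp only [Fin.val_zero, pow_zero, one_mul, Fin.val_one, pow_one, neg_mul,
      Pi.zero_apply] at h2
    rw [← sub_eq_add_neg, sub_eq_zero] at h2
    have e0 : gface1 q 0 0 (⟨(Fin.cons (w q ⟨σ, hs⟩) t, σ), by
      intro i
      refine Fin.cases ?_ (fun i => ?_) i
      · exact hw q ⟨σ, hs⟩
      · exact hz' i⟩ : YY B 1 q) = ⟨(t, σ), hz⟩ := by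
      apply Subtype.ext
      apply Prod.ext
      · apply comp_fin1
        rfl
      · rfl
    have e1 : gface1 q 0 1 (⟨(Fin.cons (w q ⟨σ, hs⟩) t, σ), by
      intro i
      refine Fin.cases ?_ (fun i => ?_) i
      · exact hw q ⟨σ, hs⟩
      · exact hz' i⟩ : YY B 1 q) = ⟨(fun _ => w q ⟨σ, hs⟩, σ), fun _ => hw q ⟨σ, hs⟩⟩ := by
      apply Subtype.ext
      apply Prod.ext
      · apply comp_fin1
        rfl
      · rfl
    rw [e0, e1] at h2
    exact h2.symm
  · -- ηex
    intro p f hf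
    refine ⟨fun t => f ⟨(t.1, ContinuousMap.const _ (pt p t)), by
      intro i
      rintro _ ⟨x, rfl⟩
      exact mem_iInter.1 (hpt p t) i⟩, ?_⟩
    funext z
    obtain ⟨⟨t, σ⟩, hz⟩ := z
    have hz' : ∀ i, Set.range σ ⊆ B (t i) := hz
    have ht : (⋂ i, B (t i)).Nonempty := YY.tup ⟨(t, σ), hz⟩
    have hz'' := rng t σ hz'
    have h2 := congrFun hf (⟨(t, K p ⟨t, ht⟩ 0 σ),
      rng' t _ (hK1 p ⟨t, ht⟩ 0 σ hz'').1⟩ : YY B p 1)
    rw [altd_apply, Fin.sum_univ_two] at h2
    simp only [Fin.val_zero, pow_zero, one_mul, Fin.val_one, pow_one, neg_mul,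
      Pi.zero_apply] at h2
    rw [← sub_eq_add_neg, sub_eq_zero] at h2
    have e0 : gface2 p 0 0 (⟨(t, K p ⟨t, ht⟩ 0 σ),
      rng' t _ (hK1 p ⟨t, ht⟩ 0 σ hz'').1⟩ : YY B p 1) = ⟨(t, σ), hz⟩ := by
      apply Subtype.ext
      apply Prod.ext
      · rfl
      · exact (hK1 p ⟨t, ht⟩ 0 σ hz'').2
    have e1 : gface2 p 0 1 (⟨(t, K p ⟨t, ht⟩ 0 σ),
      rng' t _ (hK1 p ⟨t, ht⟩ 0 σ hz'').1⟩ : YY B p 1) =
        ⟨(t, ContinuousMap.const _ (pt p ⟨t, ht⟩)), by
          intro i
          rintro _ ⟨x, rfl⟩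
          exact mem_iInter.1 (hpt p ⟨t, ht⟩) i⟩ := by
      apply Subtype.ext
      apply Prod.ext
      · rfl
      · exact hK3 p ⟨t, ht⟩ σ hz''
    rw [e0, e1] at h2
    exact h2.symm
  · -- ex1
    intro p q f hf
    refine ⟨fun z => f ⟨(Fin.cons (w q ⟨z.1.2, sm z⟩) z.1.1, z.1.2), by
      intro i
      refine Fin.cases ?_ (fun i => ?_) i
      · exact hw q ⟨z.1.2, sm z⟩
      · exact z.2 i⟩, ?_⟩
    funext z
    obtain ⟨⟨t, σ⟩, hz⟩ := z
    have hz' : ∀ i, Set.range σ ⊆ B (t i) := hz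
    have hs : ∃ C ∈ Set.range B, Set.range σ ⊆ C := sm ⟨(t, σ), hz⟩
    have h2 := congrFun hf (⟨(Fin.cons (w q ⟨σ, hs⟩) t, σ), by
      intro i
      refine Fin.cases ?_ (fun i => ?_) i
      · exact hw q ⟨σ, hs⟩
      · exact hz' i⟩ : YY B (p + 2) q)
    rw [altd_apply, Fin.sum_univ_succ] at h2
    simp only [Fin.val_zero, pow_zero, one_mul, Pi.zero_apply] at h2
    have e0 : gface1 q (p + 1) 0 (⟨(Fin.cons (w q ⟨σ, hs⟩) t, σ), by
      intro i
      refine Fin.cases ?_ (fun i => ?_) i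
      · exact hw q ⟨σ, hs⟩
      · exact hz' i⟩ : YY B (p + 2) q) = ⟨(t, σ), hz⟩ := by
      apply Subtype.ext
      apply Prod.ext
      · funext x
        simp [gface1]
      · rfl
    rw [e0] at h2
    rw [altd_apply, eq_neg_of_add_eq_zero_left h2, ← Finset.sum_neg_distrib]
    refine Finset.sum_congr rfl fun i _ => ?_
    rw [Fin.val_succ, pow_succ]
    have e1 : gface1 q (p + 1) i.succ (⟨(Fin.cons (w q ⟨σ, hs⟩) t, σ), by
      intro i
      refine Fin.cases ?_ (fun i => ?_) i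
      · exact hw q ⟨σ, hs⟩
      · exact hz' i⟩ : YY B (p + 2) q) =
        ⟨(Fin.cons (w q ⟨σ, hs⟩) (t ∘ i.succAbove), σ), by
          intro l
          refine Fin.cases ?_ (fun l => ?_) l
          · exact hw q ⟨σ, hs⟩
          · exact hz' _⟩ := by
      apply Subtype.ext
      apply Prod.ext
      · funext x
        refine Fin.cases ?_ (fun x => ?_) x
        · simp [gface1, Fin.removeNth]
        · simp [gface1, Fin.removeNth]
      · rfl
    rw [e1]
    simp only [gface1]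
    ring
  · -- ex2
    intro p q f hf
    refine ⟨fun z => f ⟨(z.1.1, K p ⟨z.1.1, z.tup⟩ q z.1.2),
      rng' _ _ (hK1 p ⟨z.1.1, z.tup⟩ q z.1.2 (rng _ _ z.2)).1⟩, ?_⟩
    funext z
    obtain ⟨⟨t, σ⟩, hz⟩ := z
    have hz' : ∀ i, Set.range σ ⊆ B (t i) := hz
    have ht : (⋂ i, B (t i)).Nonempty := YY.tup ⟨(t, σ), hz⟩
    have hz'' := rng t σ hz'
    have h2 := congrFun hf (⟨(t, K p ⟨t, ht⟩ (q + 1) σ),
      rng' t _ (hK1 p ⟨t, ht⟩ (q + 1) σ hz'').1⟩ : YY B p (q + 2))
    rw [altd_apply, Fin.sum_univ_succ] at h2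
    simp only [Fin.val_zero, pow_zero, one_mul, Pi.zero_apply] at h2
    have e0 : gface2 p (q + 1) 0 (⟨(t, K p ⟨t, ht⟩ (q + 1) σ),
      rng' t _ (hK1 p ⟨t, ht⟩ (q + 1) σ hz'').1⟩ : YY B p (q + 2)) = ⟨(t, σ), hz⟩ := by
      apply Subtype.ext
      apply Prod.ext
      · rfl
      · exact (hK1 p ⟨t, ht⟩ (q + 1) σ hz'').2
    rw [e0] at h2
    rw [altd_apply, eq_neg_of_add_eq_zero_left h2, ← Finset.sum_neg_distrib]
    refine Finset.sum_congr rfl fun i _ => ?_
    have e1 : gface2 p (q + 1) i.succ (⟨(t, K p ⟨t, ht⟩ (q + 1) σ),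
      rng' t _ (hK1 p ⟨t, ht⟩ (q + 1) σ hz'').1⟩ : YY B p (q + 2)) =
        ⟨(t, K p ⟨t, ht⟩ q (sface q i σ)),
          rng' t _ (hK1 p ⟨t, ht⟩ q _ ((range_sface q i σ).trans hz'')).1⟩ := by
      apply Subtype.ext
      apply Prod.ext
      · rfl
      · exact hK2 p ⟨t, ht⟩ q σ hz'' i
    rw [e1]
    simp only [gface2, Fin.val_succ, pow_succ]
    ring

theorem tcoh_van (n : ℕ) (h : Van k (Nrv B) (n + 1)) (c : TCoh k B (n + 1)) : c = 0 := by
  classical
  obtain ⟨⟨f, hf⟩, rfl⟩ := Submodule.Quotient.mk_surjective _ c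
  have hP : ∀ {m : ℕ} (t : Fin (m + 1) → J), Nrv B (Set.range t) ↔ (⋂ i, B (t i)).Nonempty := by
    intro m t
    unfold Nrv
    rw [Set.biInter_range]
  let f' : (Fin (n + 1 + 1) → J) → k := fun t => if h : (⋂ i, B (t i)).Nonempty then f ⟨t, h⟩ else 0
  obtain ⟨a, ha⟩ := h f' (by
    intro t ht
    rw [hP] at ht
    have h1 := congrFun (LinearMap.mem_ker.1 hf) ⟨t, ht⟩
    rw [altd_apply] at h1
    rw [del_def]
    rw [Pi.zero_apply] at h1
    rw [← h1]
    refine Finset.sum_congr rfl fun i _ => ?_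
    congr 1
    exact dif_pos (tface (n + 1) i ⟨t, ht⟩).2)
  apply (Submodule.Quotient.mk_eq_zero _).mpr
  refine ⟨fun t => a t.1, ?_⟩
  funext t
  have h1 := ha t.1 ((hP _).2 t.2)
  have h2 : f' t.1 = f t := dif_pos t.2
  rw [h2] at h1
  exact h1

end Tuple

section Final

variable {M : Type u} {E : Type v} [MetricSpace M] [NormedAddCommGroup E] [NormedSpace ℝ E]
  {R : ℝ} (G : Geo M E R)

include G in
/-- singular cohomology vanishes above the dimension -/
theorem Geo_vanish [CompactSpace M] [Nonempty M] [FiniteDimensional ℝ E] (k : Type w) [CommRing k]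
    (n : ℕ) (hn : finrank ℝ E < n) (c : SingCoh k M n) : c = 0 := by
  classical
  obtain ⟨n, rfl⟩ : ∃ m, n = m + 1 := ⟨n - 1, by omega⟩
  have hR := G.Rpos
  obtain ⟨F, hF, _⟩ := exists_net (M := M) [] (by simp) (by simp) (R / 4) (by linarith)
  have hρR : 4 * (R / 4) ≤ R := by linarith
  let B : F → Set M := fun p => ball p.1 (R / 4)
  obtain ⟨e1⟩ := small_simplices (k := k) (Set.range B)
    (by rintro _ ⟨p, rfl⟩; exact isOpen_ball)
    (by
      intro x
      obtain ⟨p, hp, hx⟩ := hF x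
      exact ⟨_, ⟨⟨p, hp⟩, rfl⟩, by rw [mem_ball, dist_comm]; exact hx⟩) (n + 1)
  obtain ⟨e2⟩ := nerve_tuple (k := k) (B := B) (by
    intro m t ht
    apply G.fam_cone (F := F) hρR
    refine ⟨ht, Finset.univ.image (fun i => (t i).1), ?_, ?_, ?_⟩
    · intro p hp
      obtain ⟨i, _, rfl⟩ := Finset.mem_image.1 hp
      exact (t i).2
    · exact Finset.Nonempty.image Finset.univ_nonempty _
    · ext y
      simp only [mem_iInter, Finset.mem_image, Finset.mem_univ, true_and, B, mem_ball,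
        forall_exists_index, forall_apply_eq_imp_iff]
      constructor
      · intro h i
        rw [dist_comm]; exact h i
      · intro h i
        rw [dist_comm]; exact h i) (n + 1)
  have h3 := tcoh_van n (Geo_van k G (fun p : F => p.1) hρR n (by omega)) (e2 (e1 c))
  rw [LinearEquiv.map_eq_zero_iff, LinearEquiv.map_eq_zero_iff] at h3
  exact h3

end Final

end Pool.Agent.N677.Nag
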