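import Pool.Agent.N677.Nag.Symm
import Pool.Agent.N677.Nag.Tor
import Pool.Agent.N677.Nag.Van
import Pool.Agent.Helper381.Main

/-! Assembly. -/

set_option autoImplicit false

namespace Pool.Agent.N677.Nag

open Pool.Agent.Helper381 Pool.Agent.TH592.Nag

open Bundle Bornology Set MeasureTheory Manifold Filter Metric Module
open scoped ENNReal ContDiff Topology

theorem finrank_vanish {M : Type} {E : Type} [MetricSpace M] [NormedAddCommGroup E]
    [NormedSpace ℝ E] [FiniteDimensional ℝ E] {R : ℝ} (G : Geo M E R) [CompactSpace M] [Nonempty M]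
    (k : Type) [Field k] (n : ℕ) (hn : finrank ℝ E + 1 ≤ n) : finrank k (SingCoh k M n) = 0 := by
  have h : Subsingleton (SingCoh k M n) :=
    ⟨fun a b => by rw [Geo_vanish G k n (by omega) a, Geo_vanish G k n (by omega) b]⟩
  exact Module.finrank_zero_of_subsingleton

theorem hm_tor {X : Type} [TopologicalSpace X]
    (h : ¬ ∃ i : ℕ, ∃ g : ((((AlgebraicTopology.singularHomologyFunctor (ModuleCat.{0} ℤ) i).obj
            (ModuleCat.of ℤ ℤ)).obj (TopCat.of X) : ModuleCat.{0} ℤ) : Type),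
      addOrderOf g = 2) (n : ℕ) (g : Hm ℤ X n) (hg : (2 : ℤ) • g = 0) : g = 0 := by
  obtain ⟨e⟩ := bridge ℤ X n
  by_contra hne
  apply h
  refine ⟨n, e.symm g, ?_⟩
  have : Fact (Nat.Prime 2) := ⟨Nat.prime_two⟩
  apply addOrderOf_eq_prime
  · have h1 : g + g = 0 := by rw [← two_zsmul]; exact hg
    rw [two_nsmul, ← map_add, h1, map_zero]
  · intro h0
    apply hne
    rwa [LinearEquiv.map_eq_zero_iff] at h0

theorem hm_finrank {X : Type} [TopologicalSpace X] (k : Type) [Field k] (n : ℕ) :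
    finrank k ((((AlgebraicTopology.singularHomologyFunctor (ModuleCat.{0} k) n).obj
      (ModuleCat.of k k)).obj (TopCat.of X) : ModuleCat.{0} k) : Type) = finrank k (Hm k X n) := by
  obtain ⟨e⟩ := bridge k X n
  exact e.finrank_eq

theorem main {E : Type} [NormedAddCommGroup E] [NormedSpace ℝ E] [FiniteDimensional ℝ E]
    {M : Type} [MetricSpace M] [ChartedSpace E M] [IsManifold 𝓘(ℝ, E) ∞ M]
    [RiemannianBundle (fun (x : M) ↦ TangentSpace 𝓘(ℝ, E) x)]
    [IsContMDiffRiemannianBundle 𝓘(ℝ, E) ∞ E (fun (x : M) ↦ TangentSpace 𝓘(ℝ, E) x)]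
    [IsRiemannianManifold 𝓘(ℝ, E) M] [CompactSpace M] [ConnectedSpace M] (s : M → M → M)
    (hs : ∀ x : M, Isometry (s x) ∧ s x x = x ∧
      mfderiv 𝓘(ℝ, E) 𝓘(ℝ, E) (s x) x = -ContinuousLinearMap.id ℝ E)
    (A : Finset M) (hA : ∀ x ∈ A, ∀ y ∈ A, s x y = y)
    (hlt : (∑ i ∈ Finset.range (finrank ℝ E + 1),
        Module.finrank ℝ
          ((((AlgebraicTopology.singularHomologyFunctor (ModuleCat.{0} ℝ) i).obj
            (ModuleCat.of ℝ ℝ)).obj (TopCat.of M) : ModuleCat.{0} ℝ) : Type)) < A.card) :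
    ∃ i : ℕ, ∃ g : ((((AlgebraicTopology.singularHomologyFunctor (ModuleCat.{0} ℤ) i).obj
            (ModuleCat.of ℤ ℤ)).obj (TopCat.of M) : ModuleCat.{0} ℤ) : Type),
      addOrderOf g = 2 := by
  by_contra hno
  have htor := fun n g hg => hm_tor (X := M) hno n g hg
  have : Fact (Nat.Prime 2) := ⟨Nat.prime_two⟩
  obtain ⟨R, G⟩ := riemannian_geo (E := E) (M := M)
  have hex : ∀ x : M, ∃ e : M ≃ᵢ M, (∀ y, e y = s x y) ∧ IsSymmetryAt x e := fun x =>
    symmetry_of_mfderiv (E := E) G (hs x).1 (hs x).2.1 (hs x).2.2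
  have hanti : IsAntipodal (A : Set M) := by
    intro x hx y hy
    obtain ⟨e, he, hes⟩ := hex x
    exact ⟨e, hes, by rw [he]; exact hA x (by simpa using hx) y (by simpa using hy)⟩
  have h1 := G.card_le A hanti
  obtain ⟨f2, -⟩ := G.betti_finite (ZMod 2)
  obtain ⟨fR, -⟩ := G.betti_finite ℝ
  rw [totalBetti_eq (finrank ℝ E + 1) f2 (fun n hn => finrank_vanish G (ZMod 2) n hn),
    Nat.cast_le] at h1
  have h2 : ∑ n ∈ Finset.range (finrank ℝ E + 1), finrank (ZMod 2) (SingCoh (ZMod 2) M n) ≤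
      ∑ i ∈ Finset.range (finrank ℝ E + 1),
        Module.finrank ℝ
          ((((AlgebraicTopology.singularHomologyFunctor (ModuleCat.{0} ℝ) i).obj
            (ModuleCat.of ℝ ℝ)).obj (TopCat.of M) : ModuleCat.{0} ℝ) : Type) := by
    apply Finset.sum_le_sum
    intro n _
    rw [hm_finrank, finrank_coh_eq]
    exact betti_le htor n (finite_hm n (fR n))
  omega

end Pool.Agent.N677.Nag
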