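import Pool.Agent.TH592.Nag.Bridge
import Pool.Agent.Helper381.Sing

/-! Comparison of singular homology and cohomology over fields, and two-torsion. -/

set_option autoImplicit false

namespace Pool.Agent.N677.Nag

open Pool.Agent.Helper381 Pool.Agent.TH592.Nag

open Module

section Dual

variable (k : Type) [Field k] (X : Type) [TopologicalSpace X]

variable {k X}

theorem bd_single (R : Type) [CommRing R] (n : ℕ) (σ : Sing X (n + 1)) (r : R) :
    bd R X n (Finsupp.single σ r) =
      r • ∑ i : Fin (n + 2), ((-1 : ℤ) ^ (i : ℕ)) • Finsupp.single (sface n i σ) (1 : R) := by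
  rw [bd, Finsupp.linearCombination_single]

theorem ev_bd (R : Type) [CommRing R] (n : ℕ) (f : Sing X n → R) (c : Sing X (n + 1) →₀ R) :
    Finsupp.linearCombination R f (bd R X n c) =
      Finsupp.linearCombination R (altd R (sface (X := X)) n f) c := by
  have h : (Finsupp.linearCombination R f) ∘ₗ (bd R X n) =
      Finsupp.linearCombination R (altd R (sface (X := X)) n f) := by
    refine Finsupp.lhom_ext' fun σ => LinearMap.ext_ring ?_
    simp only [LinearMap.comp_apply, Finsupp.lsingle_apply]
    rw [bd_single, one_smul, map_sum, Finsupp.linearCombination_single, one_smul, altd_apply]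
    refine Finset.sum_congr rfl fun i _ => ?_
    rw [map_zsmul, Finsupp.linearCombination_single, one_smul]
    rw [zsmul_eq_mul]
    push_cast
    rfl
  exact LinearMap.congr_fun h c

theorem lc_inj (R : Type) [CommRing R] {S : Type} (f g : S → R)
    (h : Finsupp.linearCombination R f = Finsupp.linearCombination R g) : f = g := by
  funext σ
  have := LinearMap.congr_fun h (Finsupp.single σ 1)
  simpa using this

theorem exists_lc (R : Type) [CommRing R] {S : Type} (φ : (S →₀ R) →ₗ[R] R) :
    ∃ f : S → R, Finsupp.linearCombination R f = φ := by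
  refine ⟨fun σ => φ (Finsupp.single σ 1), ?_⟩
  refine Finsupp.lhom_ext' fun σ => LinearMap.ext_ring ?_
  simp

theorem bou_le_cyc (R : Type) [CommRing R] (n : ℕ) : bou R X n ≤ cyc R X n := by
  rintro _ ⟨c, rfl⟩
  cases n with
  | zero => trivial
  | succ n =>
    have h : (bd R X n) ∘ₗ (bd R X (n + 1)) = 0 := by
      refine Finsupp.lhom_ext' fun σ => LinearMap.ext_ring ?_
      simp only [LinearMap.comp_apply, Finsupp.lsingle_apply, LinearMap.zero_apply]
      ext τ
      have h1 := ev_bd R n (fun ρ => (Finsupp.single ρ (1 : R)) τ) (bd R X (n + 1) (Finsupp.single σ 1))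
      rw [ev_bd R (n + 1)] at h1
      have h2 : altd R (sface (X := X)) (n + 1) (altd R (sface (X := X)) n
          (fun ρ => (Finsupp.single ρ (1 : R)) τ)) = 0 :=
        altd_altd _ (fun n i j σ hij => sface_sface n i j σ hij) n _
      rw [h2] at h1
      have h3 : ∀ c : Sing X n →₀ R, Finsupp.linearCombination R
          (fun ρ => (Finsupp.single ρ (1 : R)) τ) c = c τ := by
        intro c
        induction c using Finsupp.induction_linear with
        | zero => simp
        | add f g hf hg => rw [map_add, hf, hg]; rfl
        | single a b =>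
          rw [Finsupp.linearCombination_single]
          classical
          simp only [Finsupp.single_apply, smul_eq_mul]
          split_ifs <;> simp
      rw [h3] at h1
      rw [h1, Finsupp.linearCombination_zero]
      rfl
    exact LinearMap.congr_fun h c

theorem lc_add (R : Type) [CommRing R] {S : Type} (f g : S → R) (c : S →₀ R) :
    Finsupp.linearCombination R (f + g) c =
      Finsupp.linearCombination R f c + Finsupp.linearCombination R g c := by
  have h : Finsupp.linearCombination R (f + g) =
      Finsupp.linearCombination R f + Finsupp.linearCombination R g := by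
    refine Finsupp.lhom_ext' fun σ => LinearMap.ext_ring ?_
    simp
  rw [h]
  rfl

theorem lc_smul (R : Type) [CommRing R] {S : Type} (r : R) (g : S → R) (c : S →₀ R) :
    Finsupp.linearCombination R (r • g) c = r • Finsupp.linearCombination R g c := by
  have h : Finsupp.linearCombination R (r • g) = r • Finsupp.linearCombination R g := by
    refine Finsupp.lhom_ext' fun σ => LinearMap.ext_ring ?_
    simp
  rw [h]
  rfl

/-- evaluation of cocycles on homology -/
noncomputable def evH (n : ℕ) (f : LinearMap.ker (altd k (sface (X := X)) n)) :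
    Dual k (Hm k X n) :=
  Submodule.liftQ _ ((Finsupp.linearCombination k f.1).comp (cyc k X n).subtype) (by
    rintro ⟨z, hz⟩ hzb
    obtain ⟨c, hc⟩ := hzb
    rw [LinearMap.mem_ker]
    change Finsupp.linearCombination k f.1 z = 0
    have hc' : bd k X n c = z := hc
    rw [← hc', ev_bd, LinearMap.mem_ker.1 f.2, Finsupp.linearCombination_zero]
    rfl)

theorem evH_mk (n : ℕ) (f : LinearMap.ker (altd k (sface (X := X)) n)) (z : cyc k X n) :
    evH n f (Submodule.Quotient.mk z) = Finsupp.linearCombination k f.1 z.1 := rfl

theorem evH_add (n : ℕ) (f g : LinearMap.ker (altd k (sface (X := X)) n)) :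
    evH n (f + g) = evH n f + evH n g := by
  apply LinearMap.ext
  intro q
  obtain ⟨z, rfl⟩ := Submodule.Quotient.mk_surjective _ q
  rw [LinearMap.add_apply, evH_mk, evH_mk, evH_mk]
  exact lc_add k f.1 g.1 z.1

theorem evH_smul (n : ℕ) (r : k) (f : LinearMap.ker (altd k (sface (X := X)) n)) :
    evH n (r • f) = r • evH n f := by
  apply LinearMap.ext
  intro q
  obtain ⟨z, rfl⟩ := Submodule.Quotient.mk_surjective _ q
  rw [LinearMap.smul_apply, evH_mk, evH_mk]
  exact lc_smul k r f.1 z.1

/-- evaluation of cocycles on homology, as a linear map -/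
noncomputable def evL (n : ℕ) : LinearMap.ker (altd k (sface (X := X)) n) →ₗ[k] Dual k (Hm k X n) where
  toFun := evH n
  map_add' := evH_add n
  map_smul' := by
    intro r f
    have := evH_smul n r f
    rw [RingHom.id_apply]
    rw [this]

theorem coh_dual (n : ℕ) : Nonempty (SingCoh k X n ≃ₗ[k] Dual k (Hm k X n)) := by
  let Φ : LinearMap.ker (altd k (sface (X := X)) n) →ₗ[k] Dual k (Hm k X n) := evL n
  have hsurj : Function.Surjective Φ := by
    intro φ
    let χ : cyc k X n →ₗ[k] k :=
      { toFun := fun z => φ (Submodule.Quotient.mk z)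
        map_add' := by
          intro a b
          rw [Submodule.Quotient.mk_add, map_add]
        map_smul' := by
          intro r a
          rw [Submodule.Quotient.mk_smul, map_smul]
          rfl }
    obtain ⟨ψ, hψ⟩ := LinearMap.exists_extend χ
    obtain ⟨f, rfl⟩ := exists_lc k ψ
    have hval : ∀ z : cyc k X n, Finsupp.linearCombination k f z.1 =
        φ (Submodule.Quotient.mk z) := fun z => LinearMap.congr_fun hψ z
    refine ⟨⟨f, ?_⟩, ?_⟩
    · rw [LinearMap.mem_ker]
      apply lc_inj
      rw [Finsupp.linearCombination_zero]
      apply LinearMap.ext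
      intro c
      rw [← ev_bd]
      have hz : bd k X n c ∈ bou k X n := ⟨c, rfl⟩
      have h1 := hval ⟨bd k X n c, bou_le_cyc k n hz⟩
      rw [h1]
      have h2 : (Submodule.Quotient.mk ⟨bd k X n c, bou_le_cyc k n hz⟩ : Hm k X n) = 0 := by
        rw [Submodule.Quotient.mk_eq_zero]
        exact hz
      rw [h2, map_zero]
      rfl
    · apply LinearMap.ext
      intro q
      obtain ⟨z, rfl⟩ := Submodule.Quotient.mk_surjective _ q
      exact hval z
  have hker : LinearMap.ker Φ = (cobound k (fun n => Sing X n → k)
      (fun n => altd k (sface (X := X)) n) n).comap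
        (LinearMap.ker (altd k (sface (X := X)) n)).subtype := by
    ext f
    rw [LinearMap.mem_ker, Submodule.mem_comap]
    constructor
    · intro h
      have h1 : ∀ z ∈ cyc k X n, Finsupp.linearCombination k f.1 z = 0 := by
        intro z hz
        have := LinearMap.congr_fun h (Submodule.Quotient.mk ⟨z, hz⟩)
        exact this
      cases n with
      | zero =>
        change f.1 = 0
        apply lc_inj
        rw [Finsupp.linearCombination_zero]
        apply LinearMap.ext
        intro z
        exact h1 z trivial
      | succ m =>
        have h2 : Finsupp.linearCombination k f.1 ∈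
            LinearMap.range (bd k X m).dualMap := by
          rw [LinearMap.range_dualMap_eq_dualAnnihilator_ker, Submodule.mem_dualAnnihilator]
          exact h1
        obtain ⟨g, hg⟩ := h2
        obtain ⟨g, rfl⟩ := exists_lc k g
        refine ⟨g, ?_⟩
        apply lc_inj
        apply LinearMap.ext
        intro c
        rw [← ev_bd]
        exact LinearMap.congr_fun hg c
    · intro h
      apply LinearMap.ext
      intro q
      obtain ⟨z, rfl⟩ := Submodule.Quotient.mk_surjective _ q
      change Finsupp.linearCombination k f.1 z.1 = 0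
      cases n with
      | zero =>
        have h1 : f.1 = 0 := h
        rw [h1, Finsupp.linearCombination_zero]
        rfl
      | succ m =>
        obtain ⟨g, hg⟩ := h
        have hg' : altd k (sface (X := X)) m g = f.1 := hg
        rw [← hg', ← ev_bd]
        have hz : bd k X m z.1 = 0 := z.2
        rw [hz, map_zero]
  exact ⟨(Submodule.quotEquivOfEq _ _ hker.symm).trans (Φ.quotKerEquivOfSurjective hsurj)⟩

theorem finrank_coh_eq (n : ℕ) : finrank k (SingCoh k X n) = finrank k (Hm k X n) := by
  obtain ⟨e⟩ := coh_dual (k := k) (X := X) n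
  rw [e.finrank_eq, Subspace.dual_finrank_eq]

theorem finite_hm (n : ℕ) (h : Module.Finite k (SingCoh k X n)) : Module.Finite k (Hm k X n) := by
  obtain ⟨e⟩ := coh_dual (k := k) (X := X) n
  rw [← Module.finite_dual_iff k]
  exact Module.Finite.equiv e

end Dual

end Pool.Agent.N677.Nag
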