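import Pool.Agent.Helper381.Alt

/-! Vanishing of the cohomology of nerves of convex sets in degrees at least the dimension. -/

set_option autoImplicit false

namespace Pool.Agent.N677.Nag

open Pool.Agent.Helper381

universe u v w

section Cx

variable (k : Type u) [CommRing k] {J : Type v}

/-- coboundary of functions on tuples (augmented: a function on `0`-tuples is a constant) -/
def del (n : ℕ) (a : (Fin n → J) → k) (t : Fin (n + 1) → J) : k :=
  ∑ i : Fin (n + 1), (-1 : k) ^ (i : ℕ) * a (t ∘ i.succAbove)

variable {k}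

theorem del_def (n : ℕ) (a : (Fin n → J) → k) (t : Fin (n + 1) → J) :
    del k n a t = ∑ i : Fin (n + 1), (-1 : k) ^ (i : ℕ) * a (t ∘ i.succAbove) := rfl

theorem del_del (n : ℕ) (a : (Fin n → J) → k) (t : Fin (n + 2) → J) :
    del k (n + 1) (del k n a) t = 0 := by
  cases n with
  | zero =>
    have h : ∀ x y : Fin 1 → J, del k 0 a x = del k 0 a y := by
      intro x y
      unfold del
      exact Finset.sum_congr rfl fun i _ => by
        rw [Subsingleton.elim (x ∘ i.succAbove) (y ∘ i.succAbove)]
    show ∑ i : Fin 2, (-1 : k) ^ (i : ℕ) * del k 0 a (t ∘ i.succAbove) = 0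
    rw [Fin.sum_univ_two, h (t ∘ Fin.succAbove 1) (t ∘ Fin.succAbove 0)]
    simp
  | succ n =>
    unfold del
    simp only [Finset.mul_sum]
    apply alt_cancel n (fun i j => a ((t ∘ j.succAbove) ∘ i.succAbove))
    intro i j hij
    congr 1
    funext x
    simp only [Function.comp_apply]
    rw [succAbove_comm i j hij x]

/-- reduced cohomology in degree `n` of the complex of all tuples with range in `P` vanishes -/
def Van (k : Type u) [CommRing k] (P : Set J → Prop) (n : ℕ) : Prop :=
  ∀ f : (Fin (n + 1) → J) → k, (∀ t : Fin (n + 2) → J, P (Set.range t) → del k (n + 1) f t = 0) →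
    ∃ a : (Fin n → J) → k, ∀ t : Fin (n + 1) → J, P (Set.range t) → del k n a t = f t

theorem range_comp_sub {n : ℕ} (t : Fin (n + 1) → J) (i : Fin (n + 1)) :
    Set.range (t ∘ i.succAbove) ⊆ Set.range t := by
  rintro _ ⟨x, rfl⟩
  exact ⟨_, rfl⟩

theorem Van.congr {P Q : Set J → Prop} {n : ℕ} (h : Van k P n)
    (e : ∀ (m : ℕ) (t : Fin (m + 1) → J), P (Set.range t) ↔ Q (Set.range t)) : Van k Q n := by
  intro f hf
  obtain ⟨a, ha⟩ := h f (fun t ht => hf t ((e _ t).1 ht))
  exact ⟨a, fun t ht => ha t ((e _ t).2 ht)⟩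

/-- Mayer-Vietoris -/
theorem Van.union {P Q : Set J → Prop} (hP : ∀ s t, s ⊆ t → P t → P s)
    (hQ : ∀ s t, s ⊆ t → Q t → Q s) {n : ℕ} (h1 : Van k P (n + 1)) (h2 : Van k Q (n + 1))
    (h3 : Van k (fun s => P s ∧ Q s) n) : Van k (fun s => P s ∨ Q s) (n + 1) := by
  classical
  intro f hf
  obtain ⟨a, ha⟩ := h1 f (fun t ht => hf t (Or.inl ht))
  obtain ⟨b, hb⟩ := h2 f (fun t ht => hf t (Or.inr ht))
  have dsub : ∀ (m : ℕ) (x y : (Fin m → J) → k) (t : Fin (m + 1) → J),
      del k m (fun s => x s - y s) t = del k m x t - del k m y t := by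
    intro m x y t
    unfold del
    rw [← Finset.sum_sub_distrib]
    refine Finset.sum_congr rfl fun i _ => ?_
    ring
  obtain ⟨c, hc⟩ := h3 (fun t => a t - b t) (by
    rintro t ⟨ht1, ht2⟩
    rw [dsub, ha t ht1, hb t ht2, sub_self])
  refine ⟨fun t => if P (Set.range t) then a t else b t + del k n c t, ?_⟩
  intro t ht
  by_cases hPt : P (Set.range t)
  · rw [← ha t hPt]
    unfold del
    refine Finset.sum_congr rfl fun i _ => ?_
    congr 1
    exact if_pos (hP _ _ (range_comp_sub t i) hPt)
  · have hQt : Q (Set.range t) := ht.resolve_left hPt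
    have e : del k (n + 1) (fun t => if P (Set.range t) then a t else b t + del k n c t) t =
        del k (n + 1) b t + del k (n + 1) (del k n c) t := by
      rw [del_def, del_def, del_def, ← Finset.sum_add_distrib]
      refine Finset.sum_congr rfl fun i _ => ?_
      rw [← mul_add]
      congr 1
      split_ifs with h
      · rw [hc (t ∘ i.succAbove) ⟨h, hQ _ _ (range_comp_sub t i) hQt⟩]
        ring
      · rfl
    rw [e, del_del, add_zero, hb t hQt]

/-- cones are acyclic -/
theorem Van.cone {P : Set J → Prop} (v : J) (hv : ∀ s, P s → P (insert v s)) (n : ℕ) :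
    Van k P n := by
  intro f hf
  refine ⟨fun t => f (Fin.cons v t), fun t ht => ?_⟩
  have h1 : Set.range (Fin.cons v t : Fin (n + 2) → J) = insert v (Set.range t) :=
    Fin.range_cons v t
  have h2 := hf (Fin.cons v t) (by rw [h1]; exact hv _ ht)
  unfold del at h2
  rw [Fin.sum_univ_succ] at h2
  simp only [Fin.val_zero, pow_zero, one_mul] at h2
  have e0 : (Fin.cons v t : Fin (n + 2) → J) ∘ Fin.succAbove 0 = t := by
    funext x; simp
  rw [e0] at h2
  have e1 : ∀ i : Fin (n + 1), (Fin.cons v t : Fin (n + 2) → J) ∘ Fin.succAbove i.succ =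
      Fin.cons v (t ∘ i.succAbove) := by
    intro i
    funext x
    refine Fin.cases ?_ (fun x => ?_) x
    · simp
    · simp
  simp only [e1] at h2
  rw [eq_neg_of_add_eq_zero_left h2]
  unfold del
  rw [← Finset.sum_neg_distrib]
  refine Finset.sum_congr rfl fun i _ => ?_
  rw [Fin.val_succ, pow_succ]
  ring

theorem Van.empty {P : Set J → Prop} (h : ∀ (m : ℕ) (t : Fin (m + 1) → J), ¬ P (Set.range t))
    (n : ℕ) : Van k P n := by
  intro f hf
  exact ⟨fun _ => 0, fun t ht => absurd ht (h _ t)⟩

end Cx

section Conv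

/-- the nerve predicate of a family -/
def Nrv {J : Type v} {E : Type w} (C : J → Set E) : Set J → Prop := fun s => (⋂ j ∈ s, C j).Nonempty

theorem Nrv.mono {J : Type v} {E : Type w} (C : J → Set E) (s t : Set J) (h : s ⊆ t)
    (ht : Nrv C t) : Nrv C s := by
  obtain ⟨x, hx⟩ := ht
  refine ⟨x, ?_⟩
  simp only [Set.mem_iInter] at hx ⊢
  exact fun j hj => hx j (h hj)

/-- the slice of a set in `ℝ^(d+1)` at height `r` -/
def slice {d : ℕ} (r : ℝ) (C : Set (Fin (d + 1) → ℝ)) : Set (Fin d → ℝ) :=
  {y | (Fin.cons r y : Fin (d + 1) → ℝ) ∈ C}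

theorem slice_convex {d : ℕ} (r : ℝ) {C : Set (Fin (d + 1) → ℝ)} (hC : Convex ℝ C) :
    Convex ℝ (slice r C) := by
  intro x hx y hy a b ha hb hab
  have := hC hx hy ha hb hab
  have e : (Fin.cons r (a • x + b • y) : Fin (d + 1) → ℝ) =
      a • (Fin.cons r x : Fin (d + 1) → ℝ) + b • (Fin.cons r y : Fin (d + 1) → ℝ) := by
    funext i
    refine Fin.cases ?_ (fun i => ?_) i
    · simp only [Fin.cons_zero, Pi.add_apply, Pi.smul_apply, smul_eq_mul]
      rw [← add_mul, hab, one_mul]
    · simp
  show (Fin.cons r (a • x + b • y) : Fin (d + 1) → ℝ) ∈ C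
  rw [e]
  exact this

theorem slice_compact {d : ℕ} (r : ℝ) {C : Set (Fin (d + 1) → ℝ)} (hC : IsCompact C) :
    IsCompact (slice r C) := by
  have h1 : slice r C = (fun x : Fin (d + 1) → ℝ => Fin.tail x) '' (C ∩ {x | x 0 = r}) := by
    ext y
    constructor
    · intro hy
      exact ⟨Fin.cons r y, ⟨hy, by simp⟩, by simp⟩
    · rintro ⟨x, ⟨hx, hx0⟩, rfl⟩
      have hx0 : x 0 = r := hx0
      show (Fin.cons r (Fin.tail x) : Fin (d + 1) → ℝ) ∈ C
      rw [← hx0, Fin.cons_self_tail]
      exact hx
  rw [h1]
  apply (hC.inter_right (isClosed_eq (continuous_apply 0) continuous_const)).image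
  exact continuous_pi fun i => continuous_apply _

theorem nrv_slice {J : Type v} {d : ℕ} (C : J → Set (Fin (d + 1) → ℝ)) (r : ℝ) (s : Set J) :
    Nrv (fun j => slice r (C j)) s ↔ ∃ x ∈ ⋂ j ∈ s, C j, x 0 = r := by
  constructor
  · rintro ⟨y, hy⟩
    simp only [Set.mem_iInter] at hy
    refine ⟨Fin.cons r y, ?_, by simp⟩
    simp only [Set.mem_iInter]
    exact hy
  · rintro ⟨x, hx, rfl⟩
    simp only [Set.mem_iInter] at hx
    refine ⟨Fin.tail x, ?_⟩
    simp only [Set.mem_iInter]
    intro j hj
    show (Fin.cons (x 0) (Fin.tail x) : Fin (d + 1) → ℝ) ∈ C j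
    rw [Fin.cons_self_tail]
    exact hx j hj

/-- nerves of compact convex sets in `ℝ^d` have no reduced cohomology in degrees `≥ d` -/
theorem leray (k : Type u) [CommRing k] (d : ℕ) : ∀ (J : Type v) [Finite J]
    (C : J → Set (Fin d → ℝ)), (∀ j, Convex ℝ (C j)) → (∀ j, IsCompact (C j)) →
    ∀ n, d ≤ n → Van k (Nrv C) n := by
  induction d with
  | zero =>
    intro J _ C hc hk n _
    by_cases h : ∃ v, (C v).Nonempty
    · obtain ⟨v, x, hx⟩ := h
      apply Van.cone v
      rintro s ⟨y, hy⟩
      refine ⟨y, ?_⟩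
      simp only [Set.mem_iInter, Set.mem_insert_iff] at hy ⊢
      rintro j (rfl | hj)
      · rw [Subsingleton.elim y x]; exact hx
      · exact hy j hj
    · apply Van.empty
      rintro m t ⟨y, hy⟩
      simp only [Set.mem_iInter] at hy
      exact h ⟨t 0, y, hy _ ⟨0, rfl⟩⟩
  | succ d ih =>
    intro J _ C hc hk n hn
    classical
    obtain ⟨n, rfl⟩ : ∃ m, n = m + 1 := ⟨n - 1, by omega⟩
    have hdn : d ≤ n := by omega
    have hsl : ∀ (r : ℝ) (m : ℕ), d ≤ m → Van k (Nrv fun j => slice r (C j)) m := fun r m hm =>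
      ih J (fun j => slice r (C j)) (fun j => slice_convex r (hc j))
        (fun j => slice_compact r (hk j)) m hm
    -- critical values
    let K : Set J → Set (Fin (d + 1) → ℝ) := fun s => ⋂ j ∈ s, C j
    have hKc : ∀ s : Set J, Convex ℝ (K s) := fun s => convex_iInter₂ fun j _ => hc j
    have hKk : ∀ s : Set J, s.Nonempty → IsCompact (K s) := by
      rintro s ⟨j, hj⟩
      apply (hk j).of_isClosed_subset
      · exact isClosed_biInter fun i _ => (hk i).isClosed
      · exact Set.biInter_subset_of_mem hj
    let crit : Set ℝ := {r | ∃ s : Set J, IsLeast ((fun x : Fin (d + 1) → ℝ => x 0) '' K s) r ∨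
      IsGreatest ((fun x : Fin (d + 1) → ℝ => x 0) '' K s) r}
    have hfin : crit.Finite := by
      have h1 : crit = ⋃ s : Set J, ({r | IsLeast ((fun x : Fin (d + 1) → ℝ => x 0) '' K s) r} ∪
          {r | IsGreatest ((fun x : Fin (d + 1) → ℝ => x 0) '' K s) r}) := by
        ext r
        simp [crit]
      rw [h1]
      apply Set.finite_iUnion
      intro s
      apply Set.Finite.union
      · exact Set.Subsingleton.finite fun a ha b hb => ha.unique hb
      · exact Set.Subsingleton.finite fun a ha b hb => ha.unique hb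
    have halive : ∀ (s : Set J), s.Nonempty → (K s).Nonempty → ∃ a ∈ crit, ∃ b ∈ crit,
        (∀ x ∈ K s, a ≤ x 0 ∧ x 0 ≤ b) ∧ (∃ x ∈ K s, x 0 = a) ∧ (∃ x ∈ K s, x 0 = b) := by
      intro s hs hne
      have hcont : ContinuousOn (fun x : Fin (d + 1) → ℝ => x 0) (K s) :=
        (continuous_apply 0).continuousOn
      obtain ⟨x, hx, hxm⟩ := (hKk s hs).exists_isMinOn hne hcont
      obtain ⟨y, hy, hym⟩ := (hKk s hs).exists_isMaxOn hne hcont
      refine ⟨x 0, ⟨s, Or.inl ⟨⟨x, hx, rfl⟩, ?_⟩⟩, y 0, ⟨s, Or.inr ⟨⟨y, hy, rfl⟩, ?_⟩⟩, ?_,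
        ⟨x, hx, rfl⟩, ⟨y, hy, rfl⟩⟩
      · rintro _ ⟨z, hz, rfl⟩
        exact hxm hz
      · rintro _ ⟨z, hz, rfl⟩
        exact hym hz
      · intro z hz
        exact ⟨hxm hz, hym hz⟩
    have hbetween : ∀ (s : Set J) (p q r : ℝ), p ≤ r → r ≤ q →
        (∃ x ∈ K s, x 0 = p) → (∃ x ∈ K s, x 0 = q) → ∃ x ∈ K s, x 0 = r := by
      rintro s p q r hpr hrq ⟨x, hx, rfl⟩ ⟨y, hy, rfl⟩
      rcases eq_or_lt_of_le (hpr.trans hrq) with h | h
      · exact ⟨x, hx, le_antisymm hpr (by rw [h]; exact hrq)⟩
      · have hd : 0 < y 0 - x 0 := by linarith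
        refine ⟨((y 0 - r) / (y 0 - x 0)) • x + ((r - x 0) / (y 0 - x 0)) • y, ?_, ?_⟩
        · apply hKc s hx hy
          · exact div_nonneg (by linarith) hd.le
          · exact div_nonneg (by linarith) hd.le
          · rw [← add_div, div_eq_one_iff_eq hd.ne']; ring
        · simp only [Pi.add_apply, Pi.smul_apply, smul_eq_mul]
          field_simp
          ring
    -- induction over initial segments of the critical values
    have main : ∀ T : Finset ℝ, (∀ t ∈ T, t ∈ crit) →
        (∀ t ∈ crit, ∀ t' ∈ T, t ≤ t' → t ∈ T) →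
        Van k (fun s => ∃ t ∈ T, Nrv (fun j => slice t (C j)) s) (n + 1) := by
      intro T
      induction T using Finset.induction_on_max with
      | empty =>
        intro _ _
        apply Van.empty
        rintro m t ⟨r, hr, _⟩
        simp at hr
      | insert m T hm hT =>
        intro hcr hinit
        have hT' := hT (fun t ht => hcr t (Finset.mem_insert_of_mem ht)) (by
          intro t ht t' ht' htt
          rcases Finset.mem_insert.1 (hinit t ht t' (Finset.mem_insert_of_mem ht') htt) with h | h
          · have := hm t' ht'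
            rw [h] at htt
            linarith
          · exact h)
        have e : Van k (fun s => (∃ t ∈ T, Nrv (fun j => slice t (C j)) s) ∨
            Nrv (fun j => slice m (C j)) s) (n + 1) := by
          apply Van.union _ _ hT' (hsl m (n + 1) (by omega))
          · rcases T.eq_empty_or_nonempty with rfl | hne
            · apply Van.empty
              rintro q t ⟨⟨r, hr, _⟩, _⟩
              simp at hr
            · set m' := T.max' hne with hm'
              have hm'T : m' ∈ T := T.max'_mem hne
              have hlt : m' < m := hm m' hm'T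
              apply (hsl ((m' + m) / 2) n hdn).congr
              intro q t
              simp only [nrv_slice]
              have hrne : (Set.range t).Nonempty := Set.range_nonempty t
              constructor
              · intro hmid
                obtain ⟨x, hx, hx0⟩ := hmid
                obtain ⟨a, ha, b, hb, hab, hxa, hxb⟩ := halive (Set.range t) hrne ⟨x, hx⟩
                have h1 := hab x hx
                rw [hx0] at h1
                have ha' : a ≤ m' := by
                  have h2 : a ≤ m := by linarith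
                  have h3 := hinit a ha m (Finset.mem_insert_self _ _) h2
                  rcases Finset.mem_insert.1 h3 with h4 | h4
                  · linarith
                  · exact T.le_max' _ h4
                have hb' : m ≤ b := by
                  by_contra hcon
                  push Not at hcon
                  have h3 := hinit b hb m (Finset.mem_insert_self _ _) hcon.le
                  rcases Finset.mem_insert.1 h3 with h4 | h4
                  · linarith
                  · have := T.le_max' _ h4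
                    linarith
                exact ⟨⟨m', hm'T, hbetween _ a b m' ha' (by linarith) hxa hxb⟩,
                  hbetween _ a b m (by linarith) hb' hxa hxb⟩
              · rintro ⟨⟨r, hr, hxr⟩, hxm⟩
                have h1 : r ≤ m' := T.le_max' _ hr
                exact hbetween _ r m _ (by linarith) (by linarith) hxr hxm
          · rintro s t hst ⟨r, hr, h⟩
            exact ⟨r, hr, Nrv.mono _ _ _ hst h⟩
          · exact fun s t hst h => Nrv.mono _ _ _ hst h
        apply e.congr
        intro q t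
        simp only [Finset.mem_insert, exists_eq_or_imp]
        exact Or.comm
    have hall := main hfin.toFinset (fun t ht => by simpa using ht)
      (fun t ht t' _ _ => by simpa using ht)
    apply hall.congr
    intro m t
    constructor
    · rintro ⟨r, _, h⟩
      rw [nrv_slice] at h
      obtain ⟨x, hx, _⟩ := h
      exact ⟨x, hx⟩
    · intro h
      obtain ⟨a, ha, b, hb, _, hxa, _⟩ := halive (Set.range t) (Set.range_nonempty t) h
      exact ⟨a, by simpa using ha, (nrv_slice _ _ _).2 hxa⟩

end Conv

end Pool.Agent.N677.Nag
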