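import Pool.Agent.N677.Nag.Zyg
import Pool.Agent.Helper381.Loc

/-! An isometry tangent to the identity at a fixed point is the identity. -/

set_option autoImplicit false

namespace Pool.Agent.N677.Nag

open Pool.Agent.Helper381

universe u v

open Metric Set

section Chart

variable {M : Type u} {E : Type v} [MetricSpace M] [NormedAddCommGroup E] [NormedSpace ℝ E]
  (c : Loc M E)

/-- radius on which isometries fixing the centre are seen in the chart -/
noncomputable def r₂ : ℝ := min (c.r₁ / (2 * c.L ^ 2)) (c.τ / (2 * c.L))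

theorem r₂pos : 0 < r₂ c := by
  have h1 := c.r₁pos
  have h2 := c.τpos
  have h3 := c.one_le_L
  unfold r₂
  positivity

theorem r₂_le : r₂ c ≤ c.r₁ := by
  have h1 := c.r₁pos
  have h3 := c.one_le_L
  refine (min_le_left _ _).trans ?_
  rw [div_le_iff₀ (by positivity)]
  nlinarith [sq_nonneg (c.L - 1)]

/-- expression of a map in the chart -/
noncomputable def rep (h : M → M) (w : E) : E := c.φ (h (c.ψ w))

/-- tangency to the identity at the centre -/
def Tang (h : M → M) : Prop :=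
  ∀ ε > 0, ∃ δ > 0, ∀ w, ‖w - c.x₀‖ < δ → ‖rep c h w - w‖ ≤ ε * ‖w - c.x₀‖

variable {c}

theorem rep_spec {h : M → M} (hi : Isometry h) (hx : h (c.ψ c.x₀) = c.ψ c.x₀) {b : E}
    (hb : b ∈ ball c.x₀ (r₂ c)) :
    rep c h b ∈ ball c.x₀ c.r₁ ∧ c.ψ (rep c h b) = h (c.ψ b) ∧
      ‖rep c h b - c.x₀‖ ≤ c.L ^ 2 * ‖b - c.x₀‖ := by
  have hL := c.one_le_L
  have hr := c.r₁pos
  have hx0 : c.x₀ ∈ ball c.x₀ c.r₁ := mem_ball_self hr
  have hb1 : b ∈ ball c.x₀ c.r₁ := ball_subset_ball (r₂_le c) hb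
  have hbn : ‖b - c.x₀‖ < r₂ c := by rwa [mem_ball, dist_eq_norm] at hb
  have hd : dist (c.ψ c.x₀) (h (c.ψ b)) ≤ c.L * ‖b - c.x₀‖ := by
    calc dist (c.ψ c.x₀) (h (c.ψ b)) = dist (h (c.ψ c.x₀)) (h (c.ψ b)) := by rw [hx]
      _ = dist (c.ψ c.x₀) (c.ψ b) := hi.dist_eq _ _
      _ ≤ _ := c.dist_le hx0 hb1
  have h1 : c.L * ‖b - c.x₀‖ < c.τ := by
    have h2 : ‖b - c.x₀‖ < c.τ / (2 * c.L) := lt_of_lt_of_le hbn (min_le_right _ _)
    rw [lt_div_iff₀ (by positivity)] at h2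
    have := norm_nonneg (b - c.x₀)
    nlinarith
  obtain ⟨w, hw, hwy, hle⟩ := c.in_chart hx0 (lt_of_le_of_lt hd h1)
  have hrep : rep c h b = w := by
    unfold rep
    rw [← hwy, c.φψ w hw]
  have h3 : ‖w - c.x₀‖ ≤ c.L ^ 2 * ‖b - c.x₀‖ := by
    calc ‖w - c.x₀‖ ≤ c.L * dist (c.ψ c.x₀) (h (c.ψ b)) := hle
      _ ≤ c.L * (c.L * ‖b - c.x₀‖) := by gcongr
      _ = _ := by ring
  rw [hrep]
  refine ⟨?_, hwy, h3⟩
  rw [mem_ball, dist_eq_norm]
  have h2 : ‖b - c.x₀‖ < c.r₁ / (2 * c.L ^ 2) := lt_of_lt_of_le hbn (min_le_left _ _)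
  rw [lt_div_iff₀ (by positivity)] at h2
  nlinarith

theorem rep_lip {h : M → M} (hi : Isometry h) (hx : h (c.ψ c.x₀) = c.ψ c.x₀) {a b : E}
    (ha : a ∈ ball c.x₀ (r₂ c)) (hb : b ∈ ball c.x₀ (r₂ c)) :
    ‖rep c h b - rep c h a‖ ≤ c.L ^ 2 * ‖b - a‖ := by
  obtain ⟨ha1, ha2, _⟩ := rep_spec hi hx ha
  obtain ⟨hb1, hb2, _⟩ := rep_spec hi hx hb
  have hL := c.one_le_L
  calc ‖rep c h b - rep c h a‖ ≤ c.L * dist (c.ψ (rep c h a)) (c.ψ (rep c h b)) :=
        c.norm_le ha1 hb1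
    _ = c.L * dist (c.ψ a) (c.ψ b) := by rw [ha2, hb2, hi.dist_eq]
    _ ≤ c.L * (c.L * ‖b - a‖) := by
        gcongr
        exact c.dist_le (ball_subset_ball (r₂_le c) ha) (ball_subset_ball (r₂_le c) hb)
    _ = _ := by ring

theorem rep_dist {h : M → M} (hi : Isometry h) (hx : h (c.ψ c.x₀) = c.ψ c.x₀) {a b : E}
    (ha : a ∈ ball c.x₀ (r₂ c)) (hb : b ∈ ball c.x₀ (r₂ c)) :
    dist (c.ψ (rep c h a)) (c.ψ (rep c h b)) = dist (c.ψ a) (c.ψ b) := by
  rw [(rep_spec hi hx ha).2.1, (rep_spec hi hx hb).2.1, hi.dist_eq]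

variable (c) in
/-- constant in the almost affine estimate -/
noncomputable def KK : ℝ := 10 * (c.C₃ + c.C) * c.L ^ 6 / c.lam

theorem KKnonneg : 0 ≤ KK c := by
  have h1 := c.C₃pos
  have h2 := c.Cpos
  have h3 := c.one_le_L
  have h4 := c.lampos
  unfold KK
  positivity

theorem almost_affine {h : M → M} (hi : Isometry h) (hx : h (c.ψ c.x₀) = c.ψ c.x₀) {b d : E}
    (hb : b ∈ ball c.x₀ (r₂ c)) (hd : d ∈ ball c.x₀ (r₂ c)) :
    ‖(2 : ℝ) • rep c h ((1 / 2 : ℝ) • (b + d)) - rep c h b - rep c h d‖ ^ 2 ≤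
      KK c * ‖b - d‖ ^ 3 := by
  set m := (1 / 2 : ℝ) • (b + d) with hm
  have hmb : m ∈ ball c.x₀ (r₂ c) := Loc.half_mem_ball hb hd
  set b' := rep c h b with hb'
  set d' := rep c h d with hd'
  set m' := rep c h m with hm'
  set D := ‖b - d‖ with hD
  have hD0 : 0 ≤ D := norm_nonneg _
  have hL := c.one_le_L
  have hC := c.Cpos
  have hC3 := c.C₃pos
  have hr1 : ball c.x₀ (r₂ c) ⊆ ball c.x₀ c.r₁ := ball_subset_ball (r₂_le c)
  obtain ⟨hb1, -, -⟩ := rep_spec hi hx hb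
  obtain ⟨hd1, -, -⟩ := rep_spec hi hx hd
  obtain ⟨hm1, -, -⟩ := rep_spec hi hx hmb
  have nbd : ‖d - b‖ = D := norm_sub_rev _ _
  have emb : m - b = (1 / 2 : ℝ) • (d - b) := by rw [hm]; module
  have edm : d - m = (1 / 2 : ℝ) • (d - b) := by rw [hm]; module
  have nmb : ‖m - b‖ ≤ D := by
    rw [emb, norm_smul, nbd]
    norm_num
    linarith
  have ndm : ‖d - m‖ ≤ D := by
    rw [edm, norm_smul, nbd]
    norm_num
    linarith
  have hL2 : 0 < c.L ^ 2 := by positivity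
  have n1 : ‖d' - b'‖ ≤ c.L ^ 2 * D := by
    have := rep_lip hi hx hb hd
    rwa [nbd] at this
  have n2 : ‖m' - b'‖ ≤ c.L ^ 2 * D :=
    (rep_lip hi hx hb hmb).trans (by gcongr)
  have n3 : ‖d' - m'‖ ≤ c.L ^ 2 * D :=
    (rep_lip hi hx hmb hd).trans (by gcongr)
  have cub : ∀ x : ℝ, 0 ≤ x → x ≤ c.L ^ 2 * D → x ^ 3 ≤ c.L ^ 6 * D ^ 3 := by
    intro x hx0 hx1
    calc x ^ 3 ≤ (c.L ^ 2 * D) ^ 3 := by gcongr
      _ = _ := by ring
  have c1 := cub _ (norm_nonneg _) n1
  have c2 := cub _ (norm_nonneg _) n2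
  have c3 := cub _ (norm_nonneg _) n3
  have hL6 : 1 ≤ c.L ^ 6 := one_le_pow₀ hL
  have c0 : D ^ 3 ≤ c.L ^ 6 * D ^ 3 := by
    have : 0 ≤ D ^ 3 := by positivity
    nlinarith
  set T := c.L ^ 6 * D ^ 3 with hT
  -- (1)
  have e1a := c.dist_sq_le' hb1 hd1
  have e1b := c.le_dist_sq' (hr1 hb) (hr1 hd)
  have e1c := rep_dist hi hx hb hd
  rw [← hb', ← hd'] at e1c
  rw [e1c] at e1a
  have e1 : c.G b (d - b) (d - b) - 2 * c.C₃ * T ≤ c.G b' (d' - b') (d' - b') := by
    have h1 : c.C₃ * ‖d' - b'‖ ^ 3 ≤ c.C₃ * T := by gcongr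
    have h2 : c.C₃ * ‖d - b‖ ^ 3 ≤ c.C₃ * T := by rw [nbd]; gcongr
    linarith
  -- (2)
  have e2a := c.le_dist_sq' hb1 hm1
  have e2b := c.dist_sq_le' (hr1 hb) (hr1 hmb)
  have e2c := rep_dist hi hx hb hmb
  rw [← hb', ← hm'] at e2c
  rw [e2c] at e2a
  have g1 : c.G b (m - b) (m - b) = c.G b (d - b) (d - b) / 4 := by
    rw [emb]
    simp only [map_smul, LinearMap.smul_apply, smul_eq_mul]
    ring
  have e2 : c.G b' (m' - b') (m' - b') ≤ c.G b (d - b) (d - b) / 4 + 2 * c.C₃ * T := by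
    have h1 : c.C₃ * ‖m' - b'‖ ^ 3 ≤ c.C₃ * T := by gcongr
    have h2 : c.C₃ * ‖m - b‖ ^ 3 ≤ c.C₃ * T := by
      have : ‖m - b‖ ^ 3 ≤ D ^ 3 := by gcongr
      gcongr
      linarith
    rw [g1] at e2b
    linarith
  -- (3)
  have e3a := c.le_dist_sq' hm1 hd1
  have e3b := c.dist_sq_le' (hr1 hmb) (hr1 hd)
  have e3c := rep_dist hi hx hmb hd
  rw [← hm', ← hd'] at e3c
  rw [e3c] at e3a
  have e3d := (abs_le.mp (c.lip b' (c.ball_sub hb1) m' (c.ball_sub hm1) (d' - m') (d' - m'))).2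
  have e3e := (abs_le.mp (c.lip m (c.ball_sub (hr1 hmb)) b (c.ball_sub (hr1 hb)) (d - m) (d - m))).2
  have g2 : c.G b (d - m) (d - m) = c.G b (d - b) (d - b) / 4 := by
    rw [edm]
    simp only [map_smul, LinearMap.smul_apply, smul_eq_mul]
    ring
  have e3 : c.G b' (d' - m') (d' - m') ≤ c.G b (d - b) (d - b) / 4 + 2 * c.C₃ * T +
      2 * c.C * T := by
    have h1 : c.C₃ * ‖d' - m'‖ ^ 3 ≤ c.C₃ * T := by gcongr
    have h2 : c.C₃ * ‖d - m‖ ^ 3 ≤ c.C₃ * T := by
      have : ‖d - m‖ ^ 3 ≤ D ^ 3 := by gcongr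
      gcongr
      linarith
    have h3 : c.C * ‖b' - m'‖ * ‖d' - m'‖ * ‖d' - m'‖ ≤ c.C * T := by
      rw [norm_sub_rev b' m']
      calc c.C * ‖m' - b'‖ * ‖d' - m'‖ * ‖d' - m'‖
          ≤ c.C * (c.L ^ 2 * D) * (c.L ^ 2 * D) * (c.L ^ 2 * D) := by gcongr
        _ = _ := by rw [hT]; ring
    have h4 : c.C * ‖m - b‖ * ‖d - m‖ * ‖d - m‖ ≤ c.C * T := by
      calc c.C * ‖m - b‖ * ‖d - m‖ * ‖d - m‖ ≤ c.C * D * D * D := by gcongr
        _ = c.C * D ^ 3 := by ring
        _ ≤ _ := by gcongr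
    rw [g2] at e3e
    linarith
  -- parallelogram
  have hbr := c.ball_sub hb1
  have par : c.G b' ((2 : ℝ) • m' - b' - d') ((2 : ℝ) • m' - b' - d') =
      2 * c.G b' (m' - b') (m' - b') + 2 * c.G b' (d' - m') (d' - m') -
        c.G b' (d' - b') (d' - b') := by
    have s1 := c.symm b' hbr m' b'
    have s2 := c.symm b' hbr m' d'
    have s3 := c.symm b' hbr b' d'
    simp only [map_sub, map_smul, LinearMap.sub_apply, LinearMap.smul_apply, smul_eq_mul]
    rw [s1, s2, s3]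
    ring
  have low := c.lower b' hbr ((2 : ℝ) • m' - b' - d')
  rw [par] at low
  have hlam := c.lampos
  have fin : c.lam * ‖(2 : ℝ) • m' - b' - d'‖ ^ 2 ≤ 10 * (c.C₃ + c.C) * T := by
    have : 0 ≤ c.C * T := by positivity
    linarith
  unfold KK
  rw [div_mul_eq_mul_div, le_div_iff₀ hlam]
  have : 10 * (c.C₃ + c.C) * c.L ^ 6 * D ^ 3 = 10 * (c.C₃ + c.C) * T := by rw [hT]; ring
  rw [this]
  linarith

variable (c) in
/-- uniform control of isometries tangent to the identity -/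
theorem exists_unif : ∃ R > 0, R ≤ r₂ c ∧ ∀ h : M → M, Isometry h → h (c.ψ c.x₀) = c.ψ c.x₀ →
    Tang c h → ∀ a ∈ ball c.x₀ R, ∀ b ∈ ball c.x₀ R,
      ‖(rep c h a - a) - (rep c h b - b)‖ ≤ 1 / 2 * ‖a - b‖ := by
  obtain ⟨R, hR, hR2, hz⟩ := zyg (E := E) (√(KK c)) (r₂ c) (Real.sqrt_nonneg _) (r₂pos c)
  refine ⟨R, hR, hR2, fun h hi hx ht => ?_⟩
  apply hz c.x₀ (fun w => rep c h w - w)
  · intro b hb d hd
    have h1 := almost_affine hi hx hb hd
    have e : (2 : ℝ) • (rep c h ((1 / 2 : ℝ) • (b + d)) - (1 / 2 : ℝ) • (b + d)) -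
        (rep c h b - b) - (rep c h d - d) =
        (2 : ℝ) • rep c h ((1 / 2 : ℝ) • (b + d)) - rep c h b - rep c h d := by module
    rw [e]
    have hK := KKnonneg (c := c)
    refine (pow_le_pow_iff_left₀ (norm_nonneg _) (by positivity) two_ne_zero).mp ?_
    rw [mul_pow, mul_pow, Real.sq_sqrt hK, Real.sq_sqrt (norm_nonneg _)]
    calc _ ≤ KK c * ‖b - d‖ ^ 3 := h1
      _ = _ := by ring
  · have h1 : rep c h c.x₀ = c.x₀ := by
      unfold rep
      rw [hx, c.φψ _ (mem_ball_self c.rpos)]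
    simp only [h1, sub_self]
  · exact ht

theorem tang_iterate {h : M → M} (hi : Isometry h) (hx : h (c.ψ c.x₀) = c.ψ c.x₀)
    (ht : Tang c h) (n : ℕ) : Tang c (h^[n]) := by
  induction n with
  | zero =>
    intro ε hε
    refine ⟨c.r, c.rpos, fun w hw => ?_⟩
    have : rep c (h^[0]) w = w := by
      unfold rep
      simp only [Function.iterate_zero, id_eq]
      exact c.φψ w (by rwa [mem_ball, dist_eq_norm])
    rw [this, sub_self, norm_zero]
    positivity
  | succ n ih =>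
    intro ε hε
    have hL := c.one_le_L
    have hε' : 0 < ε / (2 * c.L ^ 2) := by positivity
    obtain ⟨δ, hδ, h1⟩ := ih _ hε'
    obtain ⟨δ', hδ', h2⟩ := ht (ε / 2) (by positivity)
    have hr := r₂pos c
    refine ⟨min (δ / c.L ^ 2) (min δ' (r₂ c)), by positivity, fun w hw => ?_⟩
    have hw1 : ‖w - c.x₀‖ < δ / c.L ^ 2 := lt_of_lt_of_le hw (min_le_left _ _)
    have hw2 : ‖w - c.x₀‖ < δ' :=
      lt_of_lt_of_le hw ((min_le_right _ _).trans (min_le_left _ _))
    have hw3 : ‖w - c.x₀‖ < r₂ c :=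
      lt_of_lt_of_le hw ((min_le_right _ _).trans (min_le_right _ _))
    obtain ⟨s1, s2, s3⟩ := rep_spec hi hx (b := w) (by rwa [mem_ball, dist_eq_norm])
    have h3 := h2 w hw2
    rw [lt_div_iff₀ (by positivity)] at hw1
    have h4 := h1 (rep c h w) (by linarith)
    have e : rep c (h^[n + 1]) w = rep c (h^[n]) (rep c h w) := by
      change c.φ (h^[n + 1] (c.ψ w)) = c.φ (h^[n] (c.ψ (rep c h w)))
      rw [s2, Function.iterate_succ_apply]
    rw [e]
    have h5 : ‖rep c (h^[n]) (rep c h w) - w‖ ≤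
        ‖rep c (h^[n]) (rep c h w) - rep c h w‖ + ‖rep c h w - w‖ := by
      have := norm_add_le (rep c (h^[n]) (rep c h w) - rep c h w) (rep c h w - w)
      rwa [sub_add_sub_cancel] at this
    have h6 : ε / (2 * c.L ^ 2) * ‖rep c h w - c.x₀‖ ≤ ε / 2 * ‖w - c.x₀‖ := by
      calc ε / (2 * c.L ^ 2) * ‖rep c h w - c.x₀‖
          ≤ ε / (2 * c.L ^ 2) * (c.L ^ 2 * ‖w - c.x₀‖) := by gcongr
        _ = ε / 2 * ‖w - c.x₀‖ := by field_simp
    linarith

theorem rigid_chart {h : M → M} (hi : Isometry h) (hx : h (c.ψ c.x₀) = c.ψ c.x₀)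
    (ht : Tang c h) : ∃ δ > 0, ∀ y, dist (c.ψ c.x₀) y < δ → h y = y := by
  obtain ⟨R, hR, hR2, hu⟩ := exists_unif c
  have hL := c.one_le_L
  have hrr := c.r₁pos
  -- iterates
  have hin : ∀ n, Isometry (h^[n]) := by
    intro n
    induction n with
    | zero => exact isometry_id
    | succ n ih =>
      rw [Function.iterate_succ]
      exact ih.comp hi
  have hxn : ∀ n, h^[n] (c.ψ c.x₀) = c.ψ c.x₀ := by
    intro n
    exact Function.iterate_fixed hx n
  have hun := fun n => hu (h^[n]) (hin n) (hxn n) (tang_iterate hi hx ht n)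
  have key : ∀ a ∈ ball c.x₀ (R / c.L ^ 2), h (c.ψ a) = c.ψ a := by
    intro a ha
    have haL : ‖a - c.x₀‖ < R / c.L ^ 2 := by rwa [mem_ball, dist_eq_norm] at ha
    rw [lt_div_iff₀ (by positivity)] at haL
    have haR : a ∈ ball c.x₀ R := by
      rw [mem_ball, dist_eq_norm]
      have := norm_nonneg (a - c.x₀)
      nlinarith [sq_nonneg (c.L - 1)]
    have har2 : a ∈ ball c.x₀ (r₂ c) := ball_subset_ball hR2 haR
    obtain ⟨s1, s2, s3⟩ := rep_spec hi hx har2
    set f := rep c h a with hf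
    have hfR : f ∈ ball c.x₀ R := by
      rw [mem_ball, dist_eq_norm]
      linarith
    have hsucc : ∀ n, rep c (h^[n]) f = rep c (h^[n + 1]) a := by
      intro n
      change c.φ (h^[n] (c.ψ f)) = c.φ (h^[n + 1] (c.ψ a))
      rw [s2, Function.iterate_succ_apply]
    have hN : ∀ N : ℕ, ‖rep c (h^[N]) a - a - (N : ℝ) • (f - a)‖ ≤ N / 2 * ‖f - a‖ := by
      intro N
      induction N with
      | zero =>
        have e : rep c (h^[0]) a = a := by
          unfold rep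
          simp only [Function.iterate_zero, id_eq]
          exact c.φψ a (c.ball_sub (ball_subset_ball (r₂_le c) har2))
        rw [e]
        simp
      | succ N ih =>
        have h1 := hun N f hfR a haR
        rw [hsucc] at h1
        have e : rep c (h^[N + 1]) a - a - ((N + 1 : ℕ) : ℝ) • (f - a) =
            (rep c (h^[N]) a - a - (N : ℝ) • (f - a)) +
              ((rep c (h^[N + 1]) a - f) - (rep c (h^[N]) a - a)) := by
          push_cast
          module
        rw [e]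
        refine (norm_add_le _ _).trans ?_
        push_cast
        linarith
    have hbd : ∀ N : ℕ, (N : ℝ) / 2 * ‖f - a‖ ≤ 2 * c.r₁ := by
      intro N
      have h1 := hN N
      have h2 : ‖(N : ℝ) • (f - a)‖ = N * ‖f - a‖ := by
        rw [norm_smul, Real.norm_of_nonneg (Nat.cast_nonneg N)]
      have h3 : ‖(N : ℝ) • (f - a)‖ ≤ ‖rep c (h^[N]) a - a‖ +
          ‖rep c (h^[N]) a - a - (N : ℝ) • (f - a)‖ := by
        have e : (N : ℝ) • (f - a) = (rep c (h^[N]) a - a) -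
            (rep c (h^[N]) a - a - (N : ℝ) • (f - a)) := by abel
        conv_lhs => rw [e]
        exact norm_sub_le _ _
      have h4 := c.norm_lt (ball_subset_ball (r₂_le c) har2)
        (rep_spec (hin N) (hxn N) har2).1
      rw [h2] at h3
      linarith
    have hfa : f = a := by
      by_contra hne
      have hpos : 0 < ‖f - a‖ := norm_pos_iff.mpr (sub_ne_zero.mpr hne)
      obtain ⟨N, hN'⟩ := exists_nat_gt (4 * c.r₁ / ‖f - a‖)
      rw [div_lt_iff₀ hpos] at hN'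
      have := hbd N
      linarith
    rw [← s2, hfa]
  refine ⟨min c.τ (R / c.L ^ 2 / c.L), lt_min c.τpos (by positivity), fun y hy => ?_⟩
  obtain ⟨w, hw, hwy, hle⟩ := c.in_chart (mem_ball_self hrr) (lt_of_lt_of_le hy (min_le_left _ _))
  rw [← hwy]
  apply key
  rw [mem_ball, dist_eq_norm]
  refine lt_of_le_of_lt hle ?_
  have h1 := lt_of_lt_of_le hy (min_le_right _ _)
  rw [lt_div_iff₀ (by positivity)] at h1
  linarith

end Chart

section Glob

variable {M : Type u} {E : Type v} [MetricSpace M] [NormedAddCommGroup E] [NormedSpace ℝ E]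
  {R : ℝ} (G : Geo M E R)

include G

/-- if an isometry fixes a small ball around `x` pointwise it fixes the ball of radius `R` -/
theorem fix_ball' {θ : M → M} (hθ : Isometry θ) {x : M} (h : ∃ δ > 0, ∀ y, dist x y < δ → θ y = y) :
    ∀ y, dist x y < R → θ y = y := by
  obtain ⟨δ, hδ, h⟩ := h
  have hx : θ x = x := h x (by rw [dist_self]; exact hδ)
  have key : ∀ n : ℕ, ∀ y, dist x y < R → dist x y / 2 ^ n < δ → θ y = y := by
    intro n
    induction n with
    | zero =>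
      intro y _ hy
      apply h
      simpa using hy
    | succ n ih =>
      intro y hyR hy
      obtain ⟨m, hm1, hm2⟩ := G.midpt x y
      have hfm : θ m = m := by
        apply ih
        · rw [hm1]; linarith [dist_nonneg (x := x) (y := y)]
        · rw [hm1]
          rw [pow_succ] at hy
          calc dist x y / 2 / 2 ^ n = dist x y / (2 ^ n * 2) := by field_simp
            _ < δ := hy
      apply G.nonbranching (x := x) (q := m) (r := dist x y / 2) (by linarith) hm1 _ _ hm2 (by ring)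
      · calc dist m (θ y) = dist (θ m) (θ y) := by rw [hfm]
          _ = dist m y := hθ.dist_eq _ _
          _ = _ := hm2
      · calc dist x (θ y) = dist (θ x) (θ y) := by rw [hx]
          _ = dist x y := hθ.dist_eq _ _
          _ = _ := by ring
  intro y hy
  rcases eq_or_ne x y with rfl | hne
  · exact hx
  · have hpos : 0 < dist x y := dist_pos.mpr hne
    obtain ⟨n, hn⟩ := exists_pow_lt_of_lt_one (show 0 < δ / dist x y by positivity)
      (show (1 / 2 : ℝ) < 1 by norm_num)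
    apply key n y hy
    have : dist x y / 2 ^ n = (1 / 2) ^ n * dist x y := by
      rw [one_div, inv_pow]; field_simp
    rw [this]
    calc (1 / 2) ^ n * dist x y < δ / dist x y * dist x y := by
          apply mul_lt_mul_of_pos_right hn hpos
      _ = δ := by field_simp

/-- an isometry fixing a ball pointwise is the identity -/
theorem eq_id' [PreconnectedSpace M] {θ : M → M} (hθ : Isometry θ) {x : M}
    (h : ∃ δ > 0, ∀ y, dist x y < δ → θ y = y) : ∀ y, θ y = y := by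
  let U : Set M := {x | ∃ δ > 0, ∀ y, dist x y < δ → θ y = y}
  have hU : IsClopen U := by
    constructor
    · rw [← isOpen_compl_iff, Metric.isOpen_iff]
      intro z hz
      refine ⟨R / 2, by linarith [G.Rpos], ?_⟩
      intro z' hz' hz'U
      apply hz
      have h1 := fix_ball' G hθ hz'U
      refine ⟨R / 2, by linarith [G.Rpos], ?_⟩
      intro y hy
      apply h1
      have := dist_triangle z' z y
      rw [mem_ball] at hz'
      linarith
    · rw [Metric.isOpen_iff]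
      intro z hz
      have h1 := fix_ball' G hθ hz
      refine ⟨R / 2, by linarith [G.Rpos], ?_⟩
      intro z' hz'
      rw [mem_ball] at hz'
      refine ⟨R / 2, by linarith [G.Rpos], ?_⟩
      intro y hy
      apply h1
      have := dist_triangle z z' y
      rw [dist_comm z z'] at this
      linarith
  have hUu : U = univ := hU.eq_univ ⟨x, h⟩
  intro y
  have hy : y ∈ U := by rw [hUu]; trivial
  obtain ⟨δ, hδ, h⟩ := hy
  exact h y (by rw [dist_self]; exact hδ)

end Glob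

end Pool.Agent.N677.Nag
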