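import Pool.Agent.N677.Nag.Rigid
import Pool.Agent.Helper381.Riem3

/-! Isometries with differential minus the identity at a fixed point are symmetries. -/

set_option autoImplicit false

namespace Pool.Agent.N677.Nag

open Pool.Agent.Helper381

universe u v

open Bundle Bornology Set MeasureTheory Manifold Filter Metric
open scoped ENNReal ContDiff Topology

section Loc

variable {M : Type u} {E : Type v} [MetricSpace M] [NormedAddCommGroup E] [NormedSpace ℝ E]
  (c : Loc M E)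

/-- differential minus the identity at the centre -/
def NegTang (h : M → M) : Prop :=
  ∀ ε > 0, ∃ δ > 0, ∀ w, ‖w - c.x₀‖ < δ → ‖rep c h w - c.x₀ + (w - c.x₀)‖ ≤ ε * ‖w - c.x₀‖

variable {c}

theorem NegTang.sq {h : M → M} (hi : Isometry h) (hx : h (c.ψ c.x₀) = c.ψ c.x₀)
    (ht : NegTang c h) : Tang c (h ∘ h) := by
  intro ε hε
  have hL := c.one_le_L
  obtain ⟨δ, hδ, h1⟩ := ht (ε / (2 * c.L ^ 2)) (by positivity)
  obtain ⟨δ', hδ', h2⟩ := ht (ε / 2) (by positivity)
  have hr := r₂pos c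
  refine ⟨min (δ / c.L ^ 2) (min δ' (r₂ c)), by positivity, fun w hw => ?_⟩
  have hw1 : ‖w - c.x₀‖ < δ / c.L ^ 2 := lt_of_lt_of_le hw (min_le_left _ _)
  have hw2 : ‖w - c.x₀‖ < δ' := lt_of_lt_of_le hw ((min_le_right _ _).trans (min_le_left _ _))
  have hw3 : ‖w - c.x₀‖ < r₂ c := lt_of_lt_of_le hw ((min_le_right _ _).trans (min_le_right _ _))
  obtain ⟨s1, s2, s3⟩ := rep_spec hi hx (b := w) (by rwa [mem_ball, dist_eq_norm])
  have h3 := h2 w hw2
  rw [lt_div_iff₀ (by positivity)] at hw1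
  have h4 := h1 (rep c h w) (by linarith)
  have e : rep c (h ∘ h) w = rep c h (rep c h w) := by
    change c.φ (h (h (c.ψ w))) = c.φ (h (c.ψ (rep c h w)))
    rw [s2]
  rw [e]
  have e2 : rep c h (rep c h w) - w =
      (rep c h (rep c h w) - c.x₀ + (rep c h w - c.x₀)) - (rep c h w - c.x₀ + (w - c.x₀)) := by
    abel
  have h5 : ‖rep c h (rep c h w) - w‖ ≤
      ‖rep c h (rep c h w) - c.x₀ + (rep c h w - c.x₀)‖ +
        ‖rep c h w - c.x₀ + (w - c.x₀)‖ := by
    rw [e2]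
    exact norm_sub_le _ _
  have h6 : ε / (2 * c.L ^ 2) * ‖rep c h w - c.x₀‖ ≤ ε / 2 * ‖w - c.x₀‖ := by
    calc ε / (2 * c.L ^ 2) * ‖rep c h w - c.x₀‖
        ≤ ε / (2 * c.L ^ 2) * (c.L ^ 2 * ‖w - c.x₀‖) := by gcongr
      _ = ε / 2 * ‖w - c.x₀‖ := by field_simp
  linarith

theorem NegTang.isolated {h : M → M} (ht : NegTang c h) :
    ∃ ε > 0, ∀ y, dist (c.ψ c.x₀) y < ε → h y = y → y = c.ψ c.x₀ := by
  obtain ⟨δ, hδ, h1⟩ := ht 1 one_pos
  have hL := c.one_le_L
  refine ⟨min c.τ (δ / c.L), lt_min c.τpos (by positivity), fun y hy hfix => ?_⟩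
  obtain ⟨w, hw, hwy, hle⟩ :=
    c.in_chart (mem_ball_self c.r₁pos) (lt_of_lt_of_le hy (min_le_left _ _))
  have h2 := lt_of_lt_of_le hy (min_le_right _ _)
  rw [lt_div_iff₀ (by positivity)] at h2
  have h3 := h1 w (by linarith)
  have e : rep c h w = w := by
    unfold rep
    rw [hwy, hfix, ← hwy, c.φψ w hw]
  rw [e, one_mul] at h3
  have e2 : w - c.x₀ + (w - c.x₀) = (2 : ℝ) • (w - c.x₀) := by module
  rw [e2, norm_smul] at h3
  have h4 : ‖(2 : ℝ)‖ = 2 := by norm_num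
  rw [h4] at h3
  have h5 : ‖w - c.x₀‖ = 0 := by
    have := norm_nonneg (w - c.x₀)
    linarith
  rw [norm_eq_zero, sub_eq_zero] at h5
  rw [← hwy, h5]

variable {R : ℝ} (G : Geo M E R)

include G in
theorem symm_of_negTang [PreconnectedSpace M] {h : M → M} (hi : Isometry h) {x : M}
    (hcx : c.ψ c.x₀ = x) (hx : h x = x) (ht : NegTang c h) :
    ∃ e : M ≃ᵢ M, (∀ y, e y = h y) ∧ IsSymmetryAt x e := by
  subst hcx
  have hinv : ∀ y, h (h y) = y := by
    have hii : Isometry (h ∘ h) := hi.comp hi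
    have hxx : (h ∘ h) (c.ψ c.x₀) = c.ψ c.x₀ := by
      simp only [Function.comp_apply, hx]
    exact eq_id' G hii (rigid_chart hii hxx (ht.sq hi hx))
  refine ⟨⟨⟨h, h, hinv, hinv⟩, hi⟩, fun y => rfl, hinv, hx, ?_⟩
  obtain ⟨ε, hε, h1⟩ := ht.isolated
  refine ⟨ε, hε, fun y hy hfix => h1 y (by rwa [dist_comm]) hfix⟩

end Loc

section Riem

variable {E : Type v} [NormedAddCommGroup E] [NormedSpace ℝ E] [FiniteDimensional ℝ E]
  {M : Type u} [MetricSpace M] [ChartedSpace E M] [IsManifold 𝓘(ℝ, E) ∞ M]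
  [RiemannianBundle (fun (x : M) ↦ TangentSpace 𝓘(ℝ, E) x)]
  [IsContMDiffRiemannianBundle 𝓘(ℝ, E) ∞ E (fun (x : M) ↦ TangentSpace 𝓘(ℝ, E) x)]
  [IsRiemannianManifold 𝓘(ℝ, E) M]

theorem exists_loc' (p : M) : ∃ c : Loc M E, c.x₀ = extChartAt 𝓘(ℝ, E) p p ∧
    c.φ = extChartAt 𝓘(ℝ, E) p ∧ c.ψ = (extChartAt 𝓘(ℝ, E) p).symm := by
  obtain ⟨g, hgx, hgt, hG⟩ := exists_metCoef (E := E) p
  refine ⟨{ toMetCoef := g, φ := extChartAt 𝓘(ℝ, E) p, ψ := psi p,
            φψ := fun v hv => (extChartAt 𝓘(ℝ, E) p).right_inv (hgt hv),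
            isOpen_image := fun V hV hVo => isOpen_psi_image p (hV.trans hgt) hVo,
            contφ := ?_, contψ := (continuousOn_extChartAt_symm p).mono hgt,
            up := ?_, lo := ?_ }, hgx, rfl, rfl⟩
  · apply (continuousOn_extChartAt p).mono
    rintro _ ⟨v, hv, rfl⟩
    exact (extChartAt 𝓘(ℝ, E) p).map_target (hgt hv)
  · intro x hx y hy K hK h
    apply up_chart p _ K hK
    · intro t ht
      have := h t ht
      rwa [hG] at this
    · intro t ht
      apply hgt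
      have := (convex_ball g.x₀ g.r) hx hy (by linarith [ht.2] : (0 : ℝ) ≤ 1 - t) ht.1 (by ring)
      have e : (1 - t) • x + t • y = x + t • (y - x) := by module
      rwa [e] at this
  · intro x hx s K hs hK h y hy
    obtain ⟨w, hw, hwy, hle⟩ := lo_chart p hgt hx hs hK (by
      intro w hw
      have := h w (by rw [hG]; exact hw)
      refine ⟨this.1, fun v => ?_⟩
      have h2 := this.2 v
      rwa [hG, hG] at h2) y hy
    exact ⟨w, hw, hwy, by rw [hG]; exact hle⟩

theorem symmetry_of_mfderiv [CompactSpace M] [PreconnectedSpace M] {R : ℝ} (G : Geo M E R)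
    {h : M → M} (hi : Isometry h) {x : M} (hx : h x = x)
    (hd : mfderiv 𝓘(ℝ, E) 𝓘(ℝ, E) h x = -ContinuousLinearMap.id ℝ E) :
    ∃ e : M ≃ᵢ M, (∀ y, e y = h y) ∧ IsSymmetryAt x e := by
  obtain ⟨c, hc0, hcφ, hcψ⟩ := exists_loc' (E := E) x
  have hcx : c.ψ c.x₀ = x := by
    rw [hc0, hcψ]
    exact extChartAt_to_inv x
  apply symm_of_negTang (c := c) G hi hcx hx
  rcases subsingleton_or_nontrivial E with hE | hE
  · intro ε hε
    refine ⟨1, one_pos, fun w _ => ?_⟩
    rw [Subsingleton.elim (rep c h w - c.x₀ + (w - c.x₀)) 0, norm_zero]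
    positivity
  · have hmd : MDifferentiableAt 𝓘(ℝ, E) 𝓘(ℝ, E) h x := by
      by_contra hcon
      have h0 := mfderiv_zero_of_not_mdifferentiableAt hcon
      rw [h0] at hd
      obtain ⟨v, hv⟩ := exists_ne (0 : E)
      have h1 := congrArg (fun f : E →L[ℝ] E => f v) hd
      have h2 : (0 : E) = -v := h1
      apply hv
      rw [← neg_eq_zero, ← h2]
    have h1 := hmd.hasMFDerivAt.2
    rw [hd] at h1
    have h2 : HasFDerivAt (rep c h) (-ContinuousLinearMap.id ℝ E) c.x₀ := by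
      rw [hc0]
      have e : writtenInExtChartAt 𝓘(ℝ, E) 𝓘(ℝ, E) x h = rep c h := by
        funext w
        unfold writtenInExtChartAt rep
        rw [hcφ, hcψ, hx]
        rfl
      rw [e] at h1
      have h3 := h1
      rw [ModelWithCorners.range_eq_univ] at h3
      exact h3.hasFDerivAt Filter.univ_mem
    intro ε hε
    have h3 := h2.isLittleO
    rw [Asymptotics.isLittleO_iff] at h3
    have h4 := h3 hε
    rw [Metric.eventually_nhds_iff] at h4
    obtain ⟨δ, hδ, h5⟩ := h4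
    refine ⟨δ, hδ, fun w hw => ?_⟩
    have h6 := h5 (y := w) (by rw [dist_eq_norm]; exact hw)
    have e0 : rep c h c.x₀ = c.x₀ := by
      unfold rep
      rw [hcx, hx, hc0, hcφ]
    have e1 : rep c h w - rep c h c.x₀ - (-ContinuousLinearMap.id ℝ E) (w - c.x₀) =
        rep c h w - c.x₀ + (w - c.x₀) := by
      rw [e0]
      simp only [_root_.neg_apply, ContinuousLinearMap.id_apply]
      abel
    rw [e1] at h6
    exact h6

end Riem

end Pool.Agent.N677.Nag
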