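import Mathlib

/-! A Zygmund type estimate: almost affine maps tangent to zero at a point have small Lipschitz
constant near that point. -/

set_option autoImplicit false

namespace Pool.Agent.N677.Nag

universe v

open Metric Set

section Zyg

/-- the potential `4 ω t √t` -/
noncomputable def Pot (ω t : ℝ) : ℝ := 4 * ω * (t * √t)

theorem Pot_nonneg {ω t : ℝ} (hω : 0 ≤ ω) (ht : 0 ≤ t) : 0 ≤ Pot ω t := by
  unfold Pot
  positivity

theorem Pot_mono {ω s t : ℝ} (hω : 0 ≤ ω) (hs : 0 ≤ s) (h : s ≤ t) : Pot ω s ≤ Pot ω t := by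
  unfold Pot
  have h1 : √s ≤ √t := Real.sqrt_le_sqrt h
  have h2 : 0 ≤ √s := Real.sqrt_nonneg s
  have h3 : s * √s ≤ t * √t := mul_le_mul h h1 h2 (hs.trans h)
  nlinarith

/-- doubling -/
theorem Pot_double {ω t : ℝ} (hω : 0 ≤ ω) (ht : 0 ≤ t) :
    2 * Pot ω t + ω * (2 * t * √(2 * t)) ≤ Pot ω (2 * t) := by
  unfold Pot
  have h1 : √(2 * t) = √2 * √t := Real.sqrt_mul (by norm_num) t
  rw [h1]
  have h2 : (4 : ℝ) / 3 ≤ √2 := by
    rw [show (4 : ℝ) / 3 = √((4 / 3) ^ 2) from (Real.sqrt_sq (by norm_num)).symm]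
    apply Real.sqrt_le_sqrt
    norm_num
  have h3 : 0 ≤ ω * (t * √t) := by positivity
  have h4 : 2 * (4 * ω * (t * √t)) + ω * (2 * t * (√2 * √t)) =
      (8 + 2 * √2) * (ω * (t * √t)) := by ring
  have h5 : 4 * ω * (2 * t * (√2 * √t)) = (8 * √2) * (ω * (t * √t)) := by ring
  rw [h4, h5]
  apply mul_le_mul_of_nonneg_right _ h3
  linarith

variable {E : Type v} [NormedAddCommGroup E] [NormedSpace ℝ E]

theorem zyg_center {x₀ : E} {r ω : ℝ} (hω : 0 ≤ ω) {g : E → E}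
    (h1 : ∀ b ∈ ball x₀ r, ∀ c ∈ ball x₀ r,
      ‖(2 : ℝ) • g ((1 / 2 : ℝ) • (b + c)) - g b - g c‖ ≤ ω * (‖b - c‖ * √‖b - c‖))
    (h0 : g x₀ = 0)
    (h2 : ∀ ε > 0, ∃ δ > 0, ∀ w, ‖w - x₀‖ < δ → ‖g w‖ ≤ ε * ‖w - x₀‖) (u : E)
    (hu : x₀ + u ∈ ball x₀ r) : ‖g (x₀ + u)‖ ≤ Pot ω ‖u‖ := by
  have hr : ‖u‖ < r := by
    rw [mem_ball, dist_eq_norm, add_sub_cancel_left] at hu
    exact hu
  have hr0 : 0 < r := lt_of_le_of_lt (norm_nonneg _) hr
  have key : ∀ n : ℕ, ∀ u : E, ‖u‖ < r →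
      ‖g (x₀ + u)‖ ≤ Pot ω ‖u‖ + 2 ^ n * ‖g (x₀ + (1 / 2 ^ n : ℝ) • u)‖ := by
    intro n
    induction n with
    | zero =>
      intro u hu
      simp only [pow_zero, div_one, one_smul, one_mul]
      have := Pot_nonneg hω (norm_nonneg u)
      linarith
    | succ n ih =>
      intro u hu
      have hu2 : ‖(1 / 2 : ℝ) • u‖ = ‖u‖ / 2 := by
        rw [norm_smul]
        norm_num
        ring
      have h3 := h1 x₀ (mem_ball_self hr0) (x₀ + u) (by
        rw [mem_ball, dist_eq_norm, add_sub_cancel_left]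
        exact hu)
      have e1 : (1 / 2 : ℝ) • (x₀ + (x₀ + u)) = x₀ + (1 / 2 : ℝ) • u := by module
      have e2 : ‖x₀ - (x₀ + u)‖ = ‖u‖ := by
        rw [sub_add_cancel_left, norm_neg]
      rw [e1, e2, h0, sub_zero] at h3
      have h4 : ‖g (x₀ + u)‖ ≤ 2 * ‖g (x₀ + (1 / 2 : ℝ) • u)‖ + ω * (‖u‖ * √‖u‖) := by
        have h5 : g (x₀ + u) = (2 : ℝ) • g (x₀ + (1 / 2 : ℝ) • u) -
            ((2 : ℝ) • g (x₀ + (1 / 2 : ℝ) • u) - g (x₀ + u)) := by abel
        have h6 : ‖g (x₀ + u)‖ ≤ ‖(2 : ℝ) • g (x₀ + (1 / 2 : ℝ) • u)‖ +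
            ‖(2 : ℝ) • g (x₀ + (1 / 2 : ℝ) • u) - g (x₀ + u)‖ := by
          conv_lhs => rw [h5]
          exact norm_sub_le _ _
        have h7 : ‖(2 : ℝ) • g (x₀ + (1 / 2 : ℝ) • u)‖ = 2 * ‖g (x₀ + (1 / 2 : ℝ) • u)‖ := by
          rw [norm_smul]
          norm_num
        linarith
      have h5 := ih ((1 / 2 : ℝ) • u) (by
        rw [hu2]
        have := norm_nonneg u
        linarith)
      have e3 : (1 / 2 ^ n : ℝ) • (1 / 2 : ℝ) • u = (1 / 2 ^ (n + 1) : ℝ) • u := by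
        rw [smul_smul, pow_succ]
        congr 1
        field_simp
      rw [e3, hu2] at h5
      have h6 := Pot_double hω (show 0 ≤ ‖u‖ / 2 by positivity)
      have e4 : 2 * (‖u‖ / 2) = ‖u‖ := by ring
      rw [e4] at h6
      have e5 : (2 : ℝ) ^ (n + 1) * ‖g (x₀ + (1 / 2 ^ (n + 1) : ℝ) • u)‖ =
          2 * (2 ^ n * ‖g (x₀ + (1 / 2 ^ (n + 1) : ℝ) • u)‖) := by ring
      rw [e5]
      linarith
  apply le_of_forall_pos_le_add
  intro ε hε
  have hε' : 0 < ε / (‖u‖ + 1) := by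
    have := norm_nonneg u
    positivity
  obtain ⟨δ, hδ, hδ'⟩ := h2 _ hε'
  obtain ⟨n, hn⟩ := exists_pow_lt_of_lt_one (show 0 < δ / (‖u‖ + 1) by
    have := norm_nonneg u
    positivity) (show (1 / 2 : ℝ) < 1 by norm_num)
  have hsc : ‖(1 / 2 ^ n : ℝ) • u‖ = 1 / 2 ^ n * ‖u‖ := by
    rw [norm_smul, Real.norm_of_nonneg (by positivity)]
  have h3 := hδ' (x₀ + (1 / 2 ^ n : ℝ) • u) (by
    rw [add_sub_cancel_left, hsc]
    have h4 : (1 / 2 : ℝ) ^ n = 1 / 2 ^ n := by rw [div_pow, one_pow]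
    rw [h4, lt_div_iff₀ (by have := norm_nonneg u; positivity)] at hn
    have h5 : (0 : ℝ) < 1 / 2 ^ n := by positivity
    nlinarith [norm_nonneg u])
  rw [add_sub_cancel_left, hsc] at h3
  have h4 := key n u hr
  have h5 : (2 : ℝ) ^ n * ‖g (x₀ + (1 / 2 ^ n : ℝ) • u)‖ ≤ ε := by
    calc (2 : ℝ) ^ n * ‖g (x₀ + (1 / 2 ^ n : ℝ) • u)‖
        ≤ 2 ^ n * (ε / (‖u‖ + 1) * (1 / 2 ^ n * ‖u‖)) := by gcongr
      _ = ε * (‖u‖ / (‖u‖ + 1)) := by
          have : (‖u‖ + 1) ≠ 0 := by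
            have := norm_nonneg u
            positivity
          field_simp
      _ ≤ ε * 1 := by
          gcongr
          rw [div_le_one (by have := norm_nonneg u; positivity)]
          linarith
      _ = ε := mul_one ε
  linarith

theorem zyg (ω r : ℝ) (hω : 0 ≤ ω) (hr : 0 < r) : ∃ R > 0, R ≤ r ∧ ∀ (x₀ : E) (g : E → E),
    (∀ b ∈ ball x₀ r, ∀ c ∈ ball x₀ r,
      ‖(2 : ℝ) • g ((1 / 2 : ℝ) • (b + c)) - g b - g c‖ ≤ ω * (‖b - c‖ * √‖b - c‖)) →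
    g x₀ = 0 → (∀ ε > 0, ∃ δ > 0, ∀ w, ‖w - x₀‖ < δ → ‖g w‖ ≤ ε * ‖w - x₀‖) →
    ∀ a ∈ ball x₀ R, ∀ b ∈ ball x₀ R, ‖g a - g b‖ ≤ 1 / 2 * ‖a - b‖ := by
  -- choice of the radius
  obtain ⟨R, hR0, hR3, hRs⟩ : ∃ R > 0, 3 * R ≤ r ∧ 3 * Pot ω (3 * R) ≤ 1 / 2 * R := by
    have hA : 0 < 1 / (72 * ω + 1) := by positivity
    refine ⟨min (r / 3) ((1 / (72 * ω + 1)) ^ 2 / 3), by positivity, ?_, ?_⟩
    · have := min_le_left (r / 3) ((1 / (72 * ω + 1)) ^ 2 / 3)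
      linarith
    · set R := min (r / 3) ((1 / (72 * ω + 1)) ^ 2 / 3) with hR
      have hR0 : 0 < R := by positivity
      have h1 : 3 * R ≤ (1 / (72 * ω + 1)) ^ 2 := by
        have := min_le_right (r / 3) ((1 / (72 * ω + 1)) ^ 2 / 3)
        linarith
      have h2 : √(3 * R) ≤ 1 / (72 * ω + 1) := by
        rw [show 1 / (72 * ω + 1) = √((1 / (72 * ω + 1)) ^ 2) from (Real.sqrt_sq hA.le).symm]
        exact Real.sqrt_le_sqrt h1
      unfold Pot
      have h3 : 0 ≤ ω * R := by positivity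
      have h4 : 3 * (4 * ω * (3 * R * √(3 * R))) = 36 * (ω * R) * √(3 * R) := by ring
      rw [h4]
      have h5 : 36 * (ω * R) * √(3 * R) ≤ 36 * (ω * R) * (1 / (72 * ω + 1)) := by gcongr
      have h6 : 36 * (ω * R) * (1 / (72 * ω + 1)) ≤ 1 / 2 * R := by
        rw [mul_one_div, div_le_iff₀ (by positivity)]
        nlinarith
      linarith
  refine ⟨R / 2, by positivity, by linarith, ?_⟩
  intro x₀ g h1 h0 h2 a ha b hb
  have ha' : ‖a - x₀‖ < R / 2 := by rwa [mem_ball, dist_eq_norm] at ha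
  have hb' : ‖b - x₀‖ < R / 2 := by rwa [mem_ball, dist_eq_norm] at hb
  have hcen : ∀ w, ‖w - x₀‖ < r → ‖g w‖ ≤ Pot ω ‖w - x₀‖ := by
    intro w hw
    have := zyg_center hω h1 h0 h2 (w - x₀) (by
      rw [mem_ball, dist_eq_norm, add_sub_cancel_left]; exact hw)
    rwa [add_sub_cancel] at this
  have hdbl : ∀ v : E, ‖v‖ < R → ‖g (a + v) - g a‖ + Pot ω ‖v‖ ≤
      1 / 2 * (‖g (a + (2 : ℝ) • v) - g a‖ + Pot ω (2 * ‖v‖)) := by
    intro v hv
    have hv2 : ‖(2 : ℝ) • v‖ = 2 * ‖v‖ := by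
      rw [norm_smul]; norm_num
    have h3 := h1 a (by rw [mem_ball, dist_eq_norm]; linarith) (a + (2 : ℝ) • v) (by
      rw [mem_ball, dist_eq_norm]
      have e : a + (2 : ℝ) • v - x₀ = (a - x₀) + (2 : ℝ) • v := by abel
      rw [e]
      have := norm_add_le (a - x₀) ((2 : ℝ) • v)
      linarith)
    have e1 : (1 / 2 : ℝ) • (a + (a + (2 : ℝ) • v)) = a + v := by module
    have e2 : ‖a - (a + (2 : ℝ) • v)‖ = 2 * ‖v‖ := by
      rw [sub_add_cancel_left, norm_neg, hv2]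
    rw [e1, e2] at h3
    have h4 : 2 * ‖g (a + v) - g a‖ ≤ ‖g (a + (2 : ℝ) • v) - g a‖ +
        ω * (2 * ‖v‖ * √(2 * ‖v‖)) := by
      have h5 : (2 : ℝ) • (g (a + v) - g a) = (g (a + (2 : ℝ) • v) - g a) +
          ((2 : ℝ) • g (a + v) - g a - g (a + (2 : ℝ) • v)) := by module
      have h6 : ‖(2 : ℝ) • (g (a + v) - g a)‖ = 2 * ‖g (a + v) - g a‖ := by
        rw [norm_smul]; norm_num
      rw [← h6, h5]
      exact (norm_add_le _ _).trans (by linarith)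
    have h5 := Pot_double hω (norm_nonneg v)
    linarith
  have hbig : ∀ w : E, ‖w‖ < 2 * R → ‖g (a + w) - g a‖ + Pot ω ‖w‖ ≤ 1 / 2 * R := by
    intro w hw
    have e : a + w - x₀ = (a - x₀) + w := by abel
    have h3 : ‖a + w - x₀‖ < 3 * R := by
      rw [e]
      have := norm_add_le (a - x₀) w
      linarith
    have h4 := hcen (a + w) (by linarith)
    have h5 := hcen a (by linarith)
    have h6 := Pot_mono hω (norm_nonneg _) h3.le
    have h7 := Pot_mono hω (norm_nonneg _) (show ‖a - x₀‖ ≤ 3 * R by linarith)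
    have h8 := Pot_mono hω (norm_nonneg _) (show ‖w‖ ≤ 3 * R by linarith)
    have h9 := norm_sub_le (g (a + w)) (g a)
    linarith
  have key : ∀ (j : ℕ) (v : E), R ≤ 2 ^ j * ‖v‖ → ‖v‖ < R →
      ‖g (a + v) - g a‖ + Pot ω ‖v‖ ≤ 1 / 2 * ‖v‖ := by
    intro j
    induction j with
    | zero =>
      intro v h3 h4
      rw [pow_zero, one_mul] at h3
      linarith
    | succ j ih =>
      intro v h3 h4
      have hv2 : ‖(2 : ℝ) • v‖ = 2 * ‖v‖ := by
        rw [norm_smul]; norm_num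
      have h5 := hdbl v h4
      rcases lt_or_ge (2 * ‖v‖) R with h6 | h6
      · have h7 := ih ((2 : ℝ) • v) (by
          rw [hv2]
          rw [pow_succ] at h3
          linarith) (by rw [hv2]; exact h6)
        rw [hv2] at h7
        linarith
      · have h7 := hbig ((2 : ℝ) • v) (by rw [hv2]; linarith)
        rw [hv2] at h7
        linarith
  rcases eq_or_ne a b with rfl | hne
  · simp
  · have hpos : 0 < ‖b - a‖ := norm_pos_iff.mpr (sub_ne_zero.mpr (Ne.symm hne))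
    obtain ⟨j, hj⟩ := pow_unbounded_of_one_lt (R / ‖b - a‖) (one_lt_two : (1 : ℝ) < 2)
    rw [div_lt_iff₀ hpos] at hj
    have h3 := key j (b - a) hj.le (by
      have e : b - a = (b - x₀) - (a - x₀) := by abel
      rw [e]
      have := norm_sub_le (b - x₀) (a - x₀)
      linarith)
    rw [add_sub_cancel] at h3
    have h4 := Pot_nonneg hω (norm_nonneg (b - a))
    rw [norm_sub_rev (g a) (g b), norm_sub_rev a b]
    linarith

end Zyg

end Pool.Agent.N677.Nag
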